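import Pool.Agent.DiestelL2.Defs

/-!
# Equivalent Hilbertian forms
-/

namespace DiestelL2

universe u v

namespace HilAux

theorem of_core {𝕜 : Type v} [RCLike 𝕜] (X H : Type u) [NormedAddCommGroup X] [NormedSpace 𝕜 X]
    [CompleteSpace X] [AddCommGroup H] [Module 𝕜 H] (core : InnerProductSpace.Core 𝕜 H)
    (e : X ≃ₗ[𝕜] H) (C : ℝ)
    (h1 : ∀ x, ‖x‖ ^ 2 ≤ RCLike.re (core.inner (e x) (e x)))
    (h2 : ∀ x, RCLike.re (core.inner (e x) (e x)) ≤ C * ‖x‖ ^ 2) : IsHilbertian 𝕜 X := by
  letI i1 : NormedAddCommGroup H := core.toNormedAddCommGroup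
  letI i2 : InnerProductSpace 𝕜 H := InnerProductSpace.ofCore core.toCore
  have hn : ∀ x, ‖e x‖ ^ 2 = RCLike.re (core.inner (e x) (e x)) := by
    intro x
    have := norm_sq_eq_re_inner (𝕜 := 𝕜) (e x)
    exact this
  have b1 : ∀ x, ‖x‖ ≤ ‖e x‖ := by
    intro x
    have := h1 x
    rw [← hn] at this
    exact (sq_le_sq₀ (norm_nonneg _) (norm_nonneg _)).mp this
  have b2 : ∀ x, ‖e x‖ ≤ Real.sqrt (max C 0) * ‖x‖ := by
    intro x
    have := h2 x
    rw [← hn] at this
    refine (sq_le_sq₀ (norm_nonneg _) (by positivity)).mp ?_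
    rw [mul_pow, Real.sq_sqrt (le_max_right _ _)]
    exact this.trans (mul_le_mul_of_nonneg_right (le_max_left _ _) (by positivity))
  let E : X ≃L[𝕜] H := e.toContinuousLinearEquivOfBounds (Real.sqrt (max C 0)) 1 b2
    (fun y => by
      have := b1 (e.symm y)
      rw [e.apply_symm_apply] at this
      rw [one_mul]; exact this)
  haveI : CompleteSpace H := (completeSpace_congr (e := E.toEquiv) E.isUniformEmbedding).mp
    inferInstance
  exact ⟨H, i1, i2, this, ⟨E⟩⟩

end HilAux

theorem hil : Stmt_Hil.{u, v} := by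
  intro 𝕜 _ X _ _ _ B C hadd hsmul hsymm hlow hup
  have hadd' : ∀ x y z, B x (y + z) = B x y + B x z := by
    intro x y z; rw [hsymm x, hadd, hsymm y, hsymm z]
  have hsmul' : ∀ (c : ℝ) x y, B x ((c : 𝕜) • y) = c * B x y := by
    intro c x y; rw [hsymm x, hsmul, hsymm y]
  have hneg : ∀ x y, B (-x) y = - B x y := by
    intro x y
    have := hsmul (-1) x y
    simpa using this
  have hneg' : ∀ x y, B x (-y) = - B x y := by
    intro x y; rw [hsymm, hneg, hsymm]
  have hzero : ∀ y, B 0 y = 0 := by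
    intro y
    have := hsmul 0 0 y
    simpa using this
  -- the symmetrised form
  obtain ⟨b, hb⟩ : ∃ b : X → X → ℝ, ∀ x y, b x y =
      B x y + B ((RCLike.I : 𝕜) • x) ((RCLike.I : 𝕜) • y) := ⟨_, fun _ _ => rfl⟩
  have badd : ∀ x y z, b (x + y) z = b x z + b y z := by
    intro x y z; rw [hb, hb, hb, smul_add, hadd, hadd]; ring
  have bsymm : ∀ x y, b x y = b y x := by
    intro x y; rw [hb, hb, hsymm x, hsymm (_ • x)]
  have badd' : ∀ x y z, b x (y + z) = b x y + b x z := by
    intro x y z; rw [bsymm, badd, bsymm y, bsymm z]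
  have bsmul : ∀ (c : ℝ) x y, b ((c : 𝕜) • x) y = c * b x y := by
    intro c x y
    rw [hb, hb, smul_comm, hsmul, hsmul]; ring
  have bsmul' : ∀ (c : ℝ) x y, b x ((c : 𝕜) • y) = c * b x y := by
    intro c x y; rw [bsymm, bsmul, bsymm]
  have bneg : ∀ x y, b (-x) y = - b x y := by
    intro x y
    have := bsmul (-1) x y
    simpa using this
  have bneg' : ∀ x y, b x (-y) = - b x y := by
    intro x y; rw [bsymm, bneg, bsymm]
  have bzero : ∀ y, b 0 y = 0 := by
    intro y
    have := bsmul 0 0 y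
    simpa using this
  have bzero' : ∀ y, b y 0 = 0 := by
    intro y; rw [bsymm, bzero]
  -- `b (I x) y = - b x (I y)`
  have bI : ∀ x y, b ((RCLike.I : 𝕜) • x) y = - b x ((RCLike.I : 𝕜) • y) := by
    intro x y
    rcases RCLike.I_mul_I (K := 𝕜) with h | h
    · rw [h, zero_smul, zero_smul, bzero, bzero', neg_zero]
    · rw [hb, hb, smul_smul, smul_smul, h]
      simp only [neg_smul, one_smul, hneg, hneg']
      ring
  let core : InnerProductSpace.Core 𝕜 X :=
    { inner := fun x y => (b x y : 𝕜) - RCLike.I * (b x ((RCLike.I : 𝕜) • y) : 𝕜)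
      conj_inner_symm := by
        intro x y
        simp only [map_sub, map_mul, RCLike.conj_ofReal, RCLike.conj_I]
        rw [bsymm y x, bsymm y, bI]
        push_cast
        ring
      re_inner_nonneg := by
        intro x
        have h0 : 0 ≤ b x x := by
          rw [hb]
          have h1 := (sq_nonneg ‖x‖).trans (hlow x)
          have h2 := (sq_nonneg ‖(RCLike.I : 𝕜) • x‖).trans (hlow ((RCLike.I : 𝕜) • x))
          linarith
        simp
        exact h0
      add_left := by
        intro x y z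
        rw [badd, badd]
        push_cast
        ring
      smul_left := by
        intro x y r
        have hr := RCLike.re_add_im r
        rw [← hr]
        generalize RCLike.re r = s at *
        generalize RCLike.im r = t at *
        rw [add_smul, mul_smul, badd, badd, bsmul, bsmul, bsmul, bsmul, bI, bI]
        rcases RCLike.I_mul_I (K := 𝕜) with h | h
        · simp [h, bzero, bzero']
        · rw [smul_smul, h]
          simp only [neg_smul, one_smul, bneg', map_add, map_mul, RCLike.conj_ofReal,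
            RCLike.conj_I]
          push_cast
          linear_combination (-(t : 𝕜) * (b x ((RCLike.I : 𝕜) • y) : 𝕜)) * h
      definite := by
        intro x hx
        have h1 : RCLike.re ((b x x : 𝕜) - RCLike.I * (b x ((RCLike.I : 𝕜) • x) : 𝕜)) = 0 := by
          have : ((b x x : 𝕜) - RCLike.I * (b x ((RCLike.I : 𝕜) • x) : 𝕜)) = 0 := hx
          rw [this]; simp
        simp at h1
        rw [hb] at h1
        have h3 := hlow x
        have h2 := (sq_nonneg ‖(RCLike.I : 𝕜) • x‖).trans (hlow ((RCLike.I : 𝕜) • x))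
        have h4 : ‖x‖ ^ 2 = 0 := le_antisymm (by linarith) (sq_nonneg _)
        simpa using h4 }
  have hre : ∀ x, RCLike.re (core.inner x x) = b x x := by
    intro x
    show RCLike.re ((b x x : 𝕜) - RCLike.I * (b x ((RCLike.I : 𝕜) • x) : 𝕜)) = _
    simp
  refine HilAux.of_core X X core (LinearEquiv.refl 𝕜 X) (2 * max C 0) ?_ ?_
  · intro x
    show ‖x‖ ^ 2 ≤ RCLike.re (core.inner x x)
    rw [hre, hb]
    have h3 := hlow x
    have h2 := (sq_nonneg ‖(RCLike.I : 𝕜) • x‖).trans (hlow ((RCLike.I : 𝕜) • x))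
    linarith
  · intro x
    show RCLike.re (core.inner x x) ≤ _
    rw [hre, hb]
    have h3 := hup x
    have h2 := hup ((RCLike.I : 𝕜) • x)
    have hn : ‖(RCLike.I : 𝕜) • x‖ ≤ ‖x‖ := by
      rw [norm_smul]
      have : ‖(RCLike.I : 𝕜)‖ ≤ 1 := by
        rcases RCLike.I_mul_I (K := 𝕜) with h | h
        · rw [h]; simp
        · exact (RCLike.norm_I_of_ne_zero (by rintro h'; rw [h'] at h; simp at h)).le
      nlinarith [norm_nonneg x]
    have hn2 : ‖(RCLike.I : 𝕜) • x‖ ^ 2 ≤ ‖x‖ ^ 2 := by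
      exact pow_le_pow_left₀ (norm_nonneg _) hn 2
    have hC : C * ‖(RCLike.I : 𝕜) • x‖ ^ 2 ≤ max C 0 * ‖x‖ ^ 2 :=
      (mul_le_mul_of_nonneg_right (le_max_left _ _) (sq_nonneg _)).trans
        (mul_le_mul_of_nonneg_left hn2 (le_max_right _ _))
    have hC' : C * ‖x‖ ^ 2 ≤ max C 0 * ‖x‖ ^ 2 :=
      mul_le_mul_of_nonneg_right (le_max_left _ _) (sq_nonneg _)
    linarith

end DiestelL2
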