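import Pool.Agent.DiestelL2.Defs

/-!
# `ℓ²` of an `ℓ²`-sum
-/

open scoped ENNReal

namespace DiestelL2

universe u v

namespace Dbl

variable {𝕜 : Type v} [RCLike 𝕜] {ι : Type} {Z : ι → Type u} [∀ i, NormedAddCommGroup (Z i)]
  [∀ i, NormedSpace 𝕜 (Z i)]

theorem two_pos : 0 < (2 : ℝ≥0∞).toReal := by norm_num

theorem memℓp_two_iff {α : Type*} {E : α → Type*} [∀ i, NormedAddCommGroup (E i)]
    {f : ∀ i, E i} : Memℓp f 2 ↔ Summable fun i => ‖f i‖ ^ 2 := by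
  rw [memℓp_gen_iff two_pos]
  norm_num

theorem norm_sq {α : Type*} {E : α → Type*} [∀ i, NormedAddCommGroup (E i)] (f : lp E 2) :
    ‖f‖ ^ 2 = ∑' i, ‖f i‖ ^ 2 := by
  have := lp.norm_rpow_eq_tsum two_pos f
  norm_num at this
  exact this

theorem memA (f : ell2V (lp Z 2)) : Memℓp (E := fun p : ℕ × ι => Z p.2)
    (fun p => f p.1 p.2) 2 := by
  rw [memℓp_two_iff]
  rw [summable_prod_of_nonneg (fun p => by positivity)]
  refine ⟨fun n => memℓp_two_iff.mp (f n).2, ?_⟩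
  have h := memℓp_two_iff.mp f.2
  refine h.congr (fun n => ?_)
  exact norm_sq (f n)

theorem memB1 (g : lp (fun p : ℕ × ι => Z p.2) 2) (n : ℕ) :
    Memℓp (fun i => g (n, i)) 2 := by
  have h := memℓp_two_iff.mp g.2
  rw [summable_prod_of_nonneg (fun p => by positivity)] at h
  exact memℓp_two_iff.mpr (h.1 n)

/-- rows -/
noncomputable def row (g : lp (fun p : ℕ × ι => Z p.2) 2) (n : ℕ) : lp Z 2 :=
  ⟨fun i => g (n, i), memB1 g n⟩

theorem row_apply (g : lp (fun p : ℕ × ι => Z p.2) 2) (n : ℕ) (i : ι) :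
    row g n i = g (n, i) := rfl

theorem memB (g : lp (fun p : ℕ × ι => Z p.2) 2) :
    Memℓp (E := fun _ : ℕ => lp Z 2) (row g) 2 := by
  have h := memℓp_two_iff.mp g.2
  rw [summable_prod_of_nonneg (fun p => by positivity)] at h
  rw [memℓp_two_iff]
  refine h.2.congr (fun n => ?_)
  exact (norm_sq (row g n)).symm

/-- the map `A` -/
noncomputable def A0 : ell2V (lp Z 2) →ₗ[𝕜] lp (fun p : ℕ × ι => Z p.2) 2 where
  toFun f := ⟨fun p => f p.1 p.2, memA f⟩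
  map_add' f g := by
    apply lp.ext; funext p; rfl
  map_smul' c f := by
    apply lp.ext; funext p; rfl

/-- the map `B` -/
noncomputable def B0 : lp (fun p : ℕ × ι => Z p.2) 2 →ₗ[𝕜] ell2V (lp Z 2) where
  toFun g := ⟨row g, memB g⟩
  map_add' f g := by
    apply lp.ext; funext n; apply lp.ext; funext i; rfl
  map_smul' c f := by
    apply lp.ext; funext n; apply lp.ext; funext i; rfl

theorem norm_A0 (f : ell2V (lp Z 2)) : ‖A0 (𝕜 := 𝕜) f‖ = ‖f‖ := by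
  rw [← sq_eq_sq₀ (norm_nonneg _) (norm_nonneg _), norm_sq, norm_sq]
  have hs := memℓp_two_iff.mp (memA f)
  rw [show (∑' i : ℕ × ι, ‖(A0 (𝕜 := 𝕜) f) i‖ ^ 2) = ∑' p : ℕ × ι, ‖f p.1 p.2‖ ^ 2 from rfl,
    hs.tsum_prod]
  exact tsum_congr (fun n => (norm_sq (f n)).symm)

theorem norm_B0 (g : lp (fun p : ℕ × ι => Z p.2) 2) : ‖B0 (𝕜 := 𝕜) g‖ = ‖g‖ := by
  have h : A0 (𝕜 := 𝕜) (B0 (𝕜 := 𝕜) g) = g := by apply lp.ext; funext p; rfl
  rw [← norm_A0 (𝕜 := 𝕜), h]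

end Dbl

theorem double : Stmt_Double.{u, v} := by
  intro 𝕜 _ ι Z _ _
  refine ⟨(Dbl.A0 (𝕜 := 𝕜)).mkContinuous 1 (fun f => by rw [Dbl.norm_A0, one_mul]),
    (Dbl.B0 (𝕜 := 𝕜)).mkContinuous 1 (fun f => by rw [Dbl.norm_B0, one_mul]), ?_⟩
  ext f
  rfl

end DiestelL2
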