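import Pool.Agent.DiestelL2.Defs

/-!
# Second layer of definitions and module statements
-/

open MeasureTheory ProbabilityTheory
open scoped ENNReal unitInterval

namespace DiestelL2

universe u v w

/-- The Gaussian variable with (finitely supported) coefficients `a`. -/
noncomputable def gv (g : ℕ → I → ℝ) (a : ℕ →₀ ℝ) (ω : I) : ℝ :=
  a.sum (fun k c => c * g k ω)

/-- real inner product of coefficient vectors -/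
noncomputable def ip (a b : ℕ →₀ ℝ) : ℝ := a.sum (fun k c => c * b k)

/-- `g` is a sequence of independent standard Gaussians (in the form of `Stmt_Gauss`). -/
structure IsGauss (g : ℕ → I → ℝ) : Prop where
  meas : ∀ k, Measurable (g k)
  law : ∀ (n : ℕ) (a : Fin n → ℕ →₀ ℝ), (∀ i j, ip (a i) (a j) = if i = j then 1 else 0) →
      (volume : Measure I).map (fun ω i => gv g (a i) ω) = gam n

/-- `h ⊗ x`, i.e. `ω ↦ h ω • x`, as a continuous linear map of `h`. -/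
noncomputable def tens (𝕜 : Type*) [RCLike 𝕜] {X : Type*} [NormedAddCommGroup X]
    [NormedSpace 𝕜 X] (x : X) : Lp 𝕜 2 (volume : Measure I) →L[𝕜] L2V X :=
  (ContinuousLinearMap.toSpanSingleton 𝕜 x).compLpL 2 volume

/-- `φ ∘ f` as a continuous linear map of `f ∈ L²([0,1],X)`. -/
noncomputable def app (𝕜 : Type*) [RCLike 𝕜] {X : Type*} [NormedAddCommGroup X]
    [NormedSpace 𝕜 X] (φ : StrongDual 𝕜 X) : L2V X →L[𝕜] Lp 𝕜 2 (volume : Measure I) :=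
  φ.compLpL 2 volume

/-- The Gaussian variable `gv g a` as an element of `L²([0,1],𝕜)` (zero if it is not in `L²`,
which never happens for Gaussian `g`). -/
noncomputable def gl (𝕜 : Type*) [RCLike 𝕜] (g : ℕ → I → ℝ) (a : ℕ →₀ ℝ) :
    Lp 𝕜 2 (volume : Measure I) :=
  open Classical in
  if h : MemLp (fun ω => ((gv g a ω : ℝ) : 𝕜)) 2 (volume : Measure I) then h.toLp _ else 0

/-- Basic facts about the Gaussian elements. -/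
def Stmt_GL : Prop :=
  ∀ (𝕜 : Type v) [RCLike 𝕜] (g : ℕ → I → ℝ), IsGauss g →
    (∀ a, MemLp (fun ω => ((gv g a ω : ℝ) : 𝕜)) 2 (volume : Measure I)) ∧
    (∀ a, gl 𝕜 g a =ᵐ[volume] fun ω => ((gv g a ω : ℝ) : 𝕜)) ∧
    (∀ a, ‖gl 𝕜 g a‖ ^ 2 = ip a a) ∧
    (∀ a b, gl 𝕜 g (a + b) = gl 𝕜 g a + gl 𝕜 g b) ∧
    (∀ (c : ℝ) a, gl 𝕜 g (c • a) = (c : 𝕜) • gl 𝕜 g a) ∧
    ∀ (X : Type u) [NormedAddCommGroup X] [NormedSpace 𝕜 X] (n : ℕ) (a : Fin n → ℕ →₀ ℝ),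
      (∀ i j, ip (a i) (a j) = if i = j then 1 else 0) → ∀ x : Fin n → X,
      ‖∑ j, tens 𝕜 (x j) (gl 𝕜 g (a j))‖ ^ 2 = ∫ t, ‖∑ j, (t j : 𝕜) • x j‖ ^ 2 ∂(gam n)

/-- Truncation to finitely many coordinates. -/
noncomputable def cut {ι : Type} {Z : ι → Type u} [∀ i, NormedAddCommGroup (Z i)]
    (s : Finset ι) (w : lp Z 2) : lp Z 2 :=
  open Classical in ∑ i ∈ s, lp.single 2 i (w i)

/-- Facts about truncations. -/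
def Stmt_Cut : Prop :=
  ∀ (𝕜 : Type v) [RCLike 𝕜] (ι : Type) (Z : ι → Type u) [∀ i, NormedAddCommGroup (Z i)]
    [∀ i, NormedSpace 𝕜 (Z i)],
    (∀ (s : Finset ι) (w w' : lp Z 2), cut s (w + w') = cut s w + cut s w') ∧
    (∀ (s : Finset ι) (c : 𝕜) (w : lp Z 2), cut s (c • w) = c • cut s w) ∧
    (∀ (s : Finset ι) (w : lp Z 2), ‖cut s w‖ ≤ ‖w‖) ∧
    (∀ (s t : Finset ι) (h : Disjoint s t) (w : lp Z 2),
      cut (s.disjUnion t h) w = cut s w + cut t w) ∧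
    (∀ (w : lp Z 2) (ε : ℝ), 0 < ε → ∃ s : Finset ι, ∀ t, s ⊆ t → ‖w - cut t w‖ ≤ ε) ∧
    (∀ (J : Finset ℕ) (s : ℕ → Finset ι) (w : ℕ → lp Z 2),
      (∀ i ∈ J, ∀ j ∈ J, i ≠ j → Disjoint (s i) (s j)) →
      ‖∑ j ∈ J, cut (s j) (w j)‖ ^ 2 = ∑ j ∈ J, ‖cut (s j) (w j)‖ ^ 2) ∧
    (∀ (J : Finset ℕ) (s : ℕ → Finset ι) (w : lp Z 2),
      (∀ i ∈ J, ∀ j ∈ J, i ≠ j → Disjoint (s i) (s j)) →
      ∑ j ∈ J, ‖cut (s j) w‖ ^ 2 ≤ ‖w‖ ^ 2)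

/-- The selection (gliding hump) property of a factorisation `id = S ∘ T` of `L²([0,1],X)`
through an `ℓ²`-sum. -/
def Sel (𝕜 : Type*) [RCLike 𝕜] {X : Type*} [NormedAddCommGroup X] [NormedSpace 𝕜 X]
    {ι : Type} {Z : ι → Type u} [∀ i, NormedAddCommGroup (Z i)] [∀ i, NormedSpace 𝕜 (Z i)]
    (T : L2V X →L[𝕜] lp Z 2) (S : lp Z 2 →L[𝕜] L2V X) (g : ℕ → I → ℝ) : Prop :=
  ∀ (Y : Finset X) (Φ : Finset (StrongDual 𝕜 X)) (ε : ℝ), 0 < ε →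
    ∃ (a : ℕ → ℕ →₀ ℝ) (s : ℕ → Finset ι),
      (∀ i j, ip (a i) (a j) = if i = j then 1 else 0) ∧ s 0 = ∅ ∧ Monotone s ∧
      ∀ j, ∀ y ∈ Y,
        ‖T (tens 𝕜 y (gl 𝕜 g (a j))) - cut (s (j + 1)) (T (tens 𝕜 y (gl 𝕜 g (a j))))‖ ≤ ε ∧
        ∀ φ ∈ Φ, ‖app 𝕜 φ (S (cut (s j) (T (tens 𝕜 y (gl 𝕜 g (a j))))))‖ ≤ ε

/-- The selection property holds if no summand contains a complemented `ℓ²`. -/
def Stmt_Sel : Prop :=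
  ∀ (𝕜 : Type v) [RCLike 𝕜] (X : Type w) [NormedAddCommGroup X] [NormedSpace 𝕜 X]
    (ι : Type) (Z : ι → Type u) [∀ i, NormedAddCommGroup (Z i)] [∀ i, NormedSpace 𝕜 (Z i)]
    (T : L2V X →L[𝕜] lp Z 2) (S : lp Z 2 →L[𝕜] L2V X) (g : ℕ → I → ℝ),
    IsGauss g → (∀ i, ¬ HasComplementedEll2 𝕜 (Z i)) → Sel 𝕜 T S g

/-- cotype inequality -/
def Stmt_Cot : Prop :=
  ∀ (𝕜 : Type v) [RCLike 𝕜] (X : Type w) [NormedAddCommGroup X] [NormedSpace 𝕜 X]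
    (ι : Type) (Z : ι → Type u) [∀ i, NormedAddCommGroup (Z i)] [∀ i, NormedSpace 𝕜 (Z i)]
    (T : L2V X →L[𝕜] lp Z 2) (S : lp Z 2 →L[𝕜] L2V X) (g : ℕ → I → ℝ),
    IsGauss g → (∀ f, S (T f) = f) → Sel 𝕜 T S g →
    ∀ (n : ℕ) (x : Fin n → X),
      ∑ j, ‖x j‖ ^ 2 ≤ (‖S‖ * ‖T‖) ^ 2 * ∫ t, ‖∑ j, (t j : 𝕜) • x j‖ ^ 2 ∂(gam n)

/-- type inequality -/
def Stmt_Typ : Prop :=
  ∀ (𝕜 : Type v) [RCLike 𝕜] (X : Type w) [NormedAddCommGroup X] [NormedSpace 𝕜 X]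
    (ι : Type) (Z : ι → Type u) [∀ i, NormedAddCommGroup (Z i)] [∀ i, NormedSpace 𝕜 (Z i)]
    (T : L2V X →L[𝕜] lp Z 2) (S : lp Z 2 →L[𝕜] L2V X) (g : ℕ → I → ℝ),
    IsGauss g → (∀ f, S (T f) = f) → Sel 𝕜 T S g →
    ∀ (n : ℕ) (x : Fin n → X),
      ∫ t, ‖∑ j, (t j : 𝕜) • x j‖ ^ 2 ∂(gam n) ≤ (‖S‖ * ‖T‖) ^ 2 * ∑ j, ‖x j‖ ^ 2

end DiestelL2
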