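import Pool.Agent.DiestelL2.Gauss
import Pool.Agent.DiestelL2.Defs2

/-!
# Gaussian elements of `L²([0,1],X)`
-/

open MeasureTheory ProbabilityTheory
open scoped ENNReal unitInterval

namespace DiestelL2

universe u v

theorem norm_sq_Lp {X : Type*} [NormedAddCommGroup X] (f : L2V X) :
    ‖f‖ ^ 2 = ∫ ω, ‖f ω‖ ^ 2 := by
  have h1 := (Lp.memLp f).eLpNorm_eq_integral_rpow_norm two_ne_zero (by simp)
  have h8 : (2 : ℝ≥0∞).toReal = ((2 : ℕ) : ℝ) := by simp
  rw [Lp.norm_def, h1]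
  simp only [h8, Real.rpow_natCast]
  have h0 : 0 ≤ ∫ ω, ‖f ω‖ ^ 2 := integral_nonneg (fun ω => by positivity)
  rw [ENNReal.toReal_ofReal (by positivity), ← Real.rpow_natCast, ← Real.rpow_mul h0]
  norm_num

theorem gv_add (g : ℕ → I → ℝ) (a b : ℕ →₀ ℝ) (ω : I) : gv g (a + b) ω = gv g a ω + gv g b ω := by
  unfold gv
  exact Finsupp.sum_add_index' (by simp) (by intros; ring)

theorem gv_smul (g : ℕ → I → ℝ) (c : ℝ) (a : ℕ →₀ ℝ) (ω : I) :
    gv g (c • a) ω = c * gv g a ω := by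
  unfold gv
  rw [Finsupp.sum_smul_index' (by simp), Finsupp.mul_sum]
  simp [mul_assoc]

theorem ip_self (a : ℕ →₀ ℝ) : ip a a = ∑ k ∈ a.support, (a k) ^ 2 := by
  unfold ip
  rw [Finsupp.sum]
  exact Finset.sum_congr rfl fun k _ => by ring

theorem ip_self_nonneg (a : ℕ →₀ ℝ) : 0 ≤ ip a a := by
  rw [ip_self]
  positivity

theorem eq_zero_of_ip (a : ℕ →₀ ℝ) (h : ip a a = 0) : a = 0 := by
  rw [ip_self, Finset.sum_eq_zero_iff_of_nonneg (fun _ _ => by positivity)] at h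
  ext k
  by_cases hk : k ∈ a.support
  · simpa using h k hk
  · simpa using hk

theorem ip_smul (c d : ℝ) (a b : ℕ →₀ ℝ) : ip (c • a) (d • b) = c * d * ip a b := by
  unfold ip
  rw [Finsupp.sum_smul_index' (by simp), Finsupp.mul_sum]
  simp only [Finsupp.coe_smul, Pi.smul_apply, smul_eq_mul]
  exact Finset.sum_congr rfl fun k _ => by ring

theorem gv_measurable {g : ℕ → I → ℝ} (hg : IsGauss g) (a : ℕ →₀ ℝ) : Measurable (gv g a) := by
  unfold gv Finsupp.sum
  exact Finset.measurable_sum _ fun k _ => (hg.meas k).const_mul _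

theorem memLp_unit {g : ℕ → I → ℝ} (hg : IsGauss g) (a : ℕ →₀ ℝ) (ha : ip a a = 1) :
    MemLp (gv g a) 2 (volume : Measure I) := by
  have h1 := hg.law 1 (fun _ => a) (by intro i j; simp [ha, Subsingleton.elim i j])
  have h2 : MemLp (fun t : Fin 1 → ℝ => t 0) 2 (gam 1) := by
    have h3 : MemLp (id : ℝ → ℝ) 2 (gaussianReal 0 1) :=
      memLp_id_gaussianReal' 2 (by simp)
    exact h3.comp_measurePreserving (measurePreserving_eval (fun _ : Fin 1 => gaussianReal 0 1) 0)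
  rw [← h1] at h2
  have hm : Measurable (fun (ω : I) (_ : Fin 1) => gv g a ω) :=
    measurable_pi_lambda _ fun _ => gv_measurable hg a
  exact (memLp_map_measure_iff (measurable_pi_apply (0 : Fin 1)).aestronglyMeasurable
    hm.aemeasurable).1 h2

theorem exists_unit (a : ℕ →₀ ℝ) (h : a ≠ 0) : ∃ b : ℕ →₀ ℝ, ip b b = 1 ∧
    a = Real.sqrt (ip a a) • b := by
  have h1 : 0 < ip a a := lt_of_le_of_ne (ip_self_nonneg a) (fun h2 => h (eq_zero_of_ip a h2.symm))
  have h2 : 0 < Real.sqrt (ip a a) := Real.sqrt_pos.2 h1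
  refine ⟨(Real.sqrt (ip a a))⁻¹ • a, ?_, ?_⟩
  · rw [ip_smul]
    have := Real.mul_self_sqrt h1.le
    field_simp
    nlinarith
  · rw [smul_smul, mul_inv_cancel₀ h2.ne', one_smul]

theorem memLp_gv {g : ℕ → I → ℝ} (hg : IsGauss g) (a : ℕ →₀ ℝ) :
    MemLp (gv g a) 2 (volume : Measure I) := by
  by_cases ha : a = 0
  · subst ha
    have : gv g 0 = fun _ => 0 := by
      funext ω
      simp [gv]
    rw [this]
    exact MemLp.zero'
  · obtain ⟨b, hb, hab⟩ := exists_unit a ha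
    rw [hab]
    have : gv g (Real.sqrt (ip a a) • b) = fun ω => Real.sqrt (ip a a) * gv g b ω := by
      funext ω
      exact gv_smul _ _ _ _
    rw [this]
    exact (memLp_unit hg b hb).const_mul _

theorem gl_facts : Stmt_GL.{u, v} := by
  intro 𝕜 _ g hg
  have hmem : ∀ a, MemLp (fun ω => ((gv g a ω : ℝ) : 𝕜)) 2 (volume : Measure I) := fun a =>
    (memLp_gv hg a).ofReal
  have hgl : ∀ a, gl 𝕜 g a = (hmem a).toLp _ := by
    intro a
    unfold gl
    rw [dif_pos (hmem a)]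
  have hae : ∀ a, gl 𝕜 g a =ᵐ[volume] fun ω => ((gv g a ω : ℝ) : 𝕜) := by
    intro a
    rw [hgl]
    exact MemLp.coeFn_toLp _
  have hadd : ∀ a b, gl 𝕜 g (a + b) = gl 𝕜 g a + gl 𝕜 g b := by
    intro a b
    apply Lp.ext
    filter_upwards [hae (a + b), hae a, hae b, Lp.coeFn_add (gl 𝕜 g a) (gl 𝕜 g b)] with ω h1 h2 h3 h4
    rw [h1, h4, Pi.add_apply, h2, h3, gv_add]
    push_cast
    rfl
  have hsmul : ∀ (c : ℝ) a, gl 𝕜 g (c • a) = (c : 𝕜) • gl 𝕜 g a := by
    intro c a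
    apply Lp.ext
    filter_upwards [hae (c • a), hae a, Lp.coeFn_smul (c : 𝕜) (gl 𝕜 g a)] with ω h1 h2 h3
    rw [h1, h3, Pi.smul_apply, h2, gv_smul]
    push_cast
    rfl
  have hlast : ∀ (X : Type u) [NormedAddCommGroup X] [NormedSpace 𝕜 X] (n : ℕ)
      (a : Fin n → ℕ →₀ ℝ), (∀ i j, ip (a i) (a j) = if i = j then 1 else 0) → ∀ x : Fin n → X,
      ‖∑ j, tens 𝕜 (x j) (gl 𝕜 g (a j))‖ ^ 2 = ∫ t, ‖∑ j, (t j : 𝕜) • x j‖ ^ 2 ∂(gam n) := by
    intro X _ _ n a ha x
    have hm : Measurable (fun (ω : I) (i : Fin n) => gv g (a i) ω) :=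
      measurable_pi_lambda _ fun i => gv_measurable hg (a i)
    have hc : Continuous (fun t : Fin n → ℝ => ‖∑ j, (t j : 𝕜) • x j‖ ^ 2) := by
      have : ∀ j, Continuous fun t : Fin n → ℝ => ((t j : ℝ) : 𝕜) := fun j =>
        RCLike.continuous_ofReal.comp (continuous_apply j)
      refine (Continuous.norm ?_).pow 2
      exact continuous_finsetSum _ fun j _ => (this j).smul continuous_const
    rw [norm_sq_Lp, ← hg.law n a ha, integral_map hm.aemeasurable hc.aestronglyMeasurable]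
    apply integral_congr_ae
    have h1 : ∀ j, tens 𝕜 (x j) (gl 𝕜 g (a j)) =ᵐ[volume]
        fun ω => ((gv g (a j) ω : ℝ) : 𝕜) • x j := by
      intro j
      have h2 := (ContinuousLinearMap.toSpanSingleton 𝕜 (x j)).coeFn_compLpL (p := 2)
        (μ := (volume : Measure I)) (gl 𝕜 g (a j))
      filter_upwards [h2, hae (a j)] with ω h3 h4
      unfold tens
      rw [h3, h4]
      simp
    have h5 := Lp.coeFn_finsetSum Finset.univ (fun j => tens 𝕜 (x j) (gl 𝕜 g (a j)))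
    have h6 : ∀ᵐ ω ∂(volume : Measure I), ∀ j, tens 𝕜 (x j) (gl 𝕜 g (a j)) ω =
        ((gv g (a j) ω : ℝ) : 𝕜) • x j := ae_all_iff.2 h1
    filter_upwards [h5, h6] with ω h7 h8
    rw [h7]
    simp only [Finset.sum_apply, h8]
  refine ⟨hmem, hae, ?_, hadd, hsmul, hlast⟩
  intro a
  by_cases ha : a = 0
  · subst ha
    have h1 : gl 𝕜 g 0 = 0 := by
      have := hsmul 0 0
      simpa using this
    rw [h1]
    simp [ip]
  · obtain ⟨b, hb, hab⟩ := exists_unit a ha
    have h1 : ‖gl 𝕜 g b‖ ^ 2 = 1 := by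
      rw [norm_sq_Lp]
      have h2 : ∫ ω, ‖gl 𝕜 g b ω‖ ^ 2 = ∫ ω, (gv g b ω) ^ 2 := by
        apply integral_congr_ae
        filter_upwards [hae b] with ω h3
        rw [h3]
        simp
      have hlaw := hg.law 1 (fun _ => b) (by intro i j; simp [hb, Subsingleton.elim i j])
      have hm : Measurable (fun (ω : I) (_ : Fin 1) => gv g b ω) :=
        measurable_pi_lambda _ fun _ => gv_measurable hg b
      have h4 : ∫ ω, (gv g b ω) ^ 2 = ∫ t, (t 0) ^ 2 ∂(gam 1) := by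
        rw [← hlaw, integral_map hm.aemeasurable
          ((measurable_pi_apply (0 : Fin 1)).pow_const 2).aestronglyMeasurable]
      have h5 : ∫ t : Fin 1 → ℝ, (t 0) ^ 2 ∂(gam 1) = ∫ x, x ^ 2 ∂(gaussianReal 0 1) := by
        have := (measurePreserving_eval (fun _ : Fin 1 => gaussianReal 0 1) 0)
        rw [← this.map_eq, integral_map (measurable_pi_apply (0 : Fin 1)).aemeasurable
          (by fun_prop)]
      have h6 : ∫ x, x ^ 2 ∂(gaussianReal 0 1) = 1 := by
        have h7 := variance_id_gaussianReal (μ := 0) (v := 1)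
        rw [variance_eq_integral (by fun_prop)] at h7
        simpa using h7
      rw [h2, h4, h5, h6]
    conv_lhs => rw [hab]
    rw [hsmul, norm_smul, mul_pow, h1, mul_one]
    simp [Real.sq_sqrt (ip_self_nonneg a)]

end DiestelL2
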