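import Pool.Agent.DiestelL2.Gauss

/-!
# Kwapień's theorem (Hahn–Banach form)
-/

open MeasureTheory ProbabilityTheory
open scoped ENNReal unitInterval

namespace DiestelL2

universe u

/-- the second moment of a Gaussian sum only depends on the weak second moments -/
lemma law_eq {E : Type u} [NormedAddCommGroup E] [NormedSpace ℝ E] {n m : ℕ} (x : Fin n → E)
    (y : Fin m → E) (h : ∀ φ : StrongDual ℝ E, ∑ j, φ (x j) ^ 2 = ∑ i, φ (y i) ^ 2) :
    ∫ t, ‖∑ j, t j • x j‖ ^ 2 ∂(gam n) = ∫ t, ‖∑ j, t j • y j‖ ^ 2 ∂(gam m) := by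
  classical
  let S : Submodule ℝ E := Submodule.span ℝ (Set.range x ∪ Set.range y)
  have hS : FiniteDimensional ℝ S := by
    apply FiniteDimensional.span_of_finite
    exact (Set.finite_range x).union (Set.finite_range y)
  have hSc : CompleteSpace S := FiniteDimensional.complete ℝ S
  let _ : MeasurableSpace S := borel S
  have : BorelSpace S := ⟨rfl⟩
  have : SecondCountableTopology S := by
    have : ProperSpace S := FiniteDimensional.proper ℝ S
    infer_instance
  let x' : Fin n → S := fun j => ⟨x j, Submodule.subset_span (Or.inl ⟨j, rfl⟩)⟩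
  let y' : Fin m → S := fun j => ⟨y j, Submodule.subset_span (Or.inr ⟨j, rfl⟩)⟩
  have key : ∀ (k : ℕ) (z : Fin k → S) , ∃ A : (Fin k → ℝ) →L[ℝ] S,
      (∀ t, A t = ∑ j, t j • z j) := by
    intro k z
    refine ⟨∑ j, (ContinuousLinearMap.proj (R := ℝ) (φ := fun _ : Fin k => ℝ) j).smulRight (z j), ?_⟩
    intro t
    simp
  obtain ⟨A, hA⟩ := key n x'
  obtain ⟨A', hA'⟩ := key m y'
  have e1 : ∀ j, A (Pi.single j 1) = x' j := by
    intro j
    rw [hA]
    simp [Pi.single_apply]
  have e2 : ∀ j, A' (Pi.single j 1) = y' j := by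
    intro j
    rw [hA']
    simp [Pi.single_apply]
  have hlaw : (gam n).map A = (gam m).map A' := by
    have : IsProbabilityMeasure ((gam n).map A) :=
      Measure.isProbabilityMeasure_map (A.continuous.measurable.aemeasurable)
    have : IsProbabilityMeasure ((gam m).map A') :=
      Measure.isProbabilityMeasure_map (A'.continuous.measurable.aemeasurable)
    apply Measure.ext_of_charFunDual
    funext L
    obtain ⟨φ, hφ, -⟩ := exists_extension_norm_eq S L
    rw [charFunDual_map, charFunDual_map, charFunDual_gamPi, charFunDual_gamPi]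
    congr 4
    have h1 : ∀ j, (L.comp A) (Pi.single j 1) = φ (x j) := by
      intro j
      rw [ContinuousLinearMap.comp_apply, e1, ← hφ]
    have h2 : ∀ j, (L.comp A') (Pi.single j 1) = φ (y j) := by
      intro j
      rw [ContinuousLinearMap.comp_apply, e2, ← hφ]
    simp_rw [h1, h2]
    exact h φ
  have i1 : ∫ t, ‖∑ j, t j • x j‖ ^ 2 ∂(gam n) = ∫ s, ‖s‖ ^ 2 ∂((gam n).map A) := by
    rw [integral_map A.continuous.measurable.aemeasurable
      (show Continuous fun s : S => ‖s‖ ^ 2 by fun_prop).measurable.aestronglyMeasurable]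
    congr 1
    funext t
    rw [hA]
    congr 1
    have h1 : ((∑ j, t j • x' j : S) : E) = ∑ j, t j • x j := by simp [x']
    rw [← h1]
    rfl
  have i2 : ∫ t, ‖∑ j, t j • y j‖ ^ 2 ∂(gam m) = ∫ s, ‖s‖ ^ 2 ∂((gam m).map A') := by
    rw [integral_map A'.continuous.measurable.aemeasurable
      (show Continuous fun s : S => ‖s‖ ^ 2 by fun_prop).measurable.aestronglyMeasurable]
    congr 1
    funext t
    rw [hA']
    congr 1
    have h1 : ((∑ j, t j • y' j : S) : E) = ∑ j, t j • y j := by simp [y']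
    rw [← h1]
    rfl
  rw [i1, i2, hlaw]

theorem kwap : Stmt_Kwap.{u} := by
  intro E _ _ K hK0 htype hcotype
  classical
  rcases subsingleton_or_nontrivial E with hE | hE
  · refine ⟨0, by simp, fun x => ?_⟩
    have : x = 0 := Subsingleton.elim _ _
    subst this
    simp
  have hK1 : 1 ≤ K ^ 2 := by
    obtain ⟨x, hx⟩ := exists_ne (0 : E)
    have h1 := htype 1 (fun _ => x)
    have h2 := hcotype 1 (fun _ => x)
    simp only [Finset.univ_unique, Finset.sum_singleton] at h1 h2
    have h3 : ‖x‖ ^ 2 ≤ K * (K * ‖x‖ ^ 2) := h2.trans (mul_le_mul_of_nonneg_left h1 hK0)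
    have h4 : 0 < ‖x‖ ^ 2 := by positivity
    by_contra hlt
    push Not at hlt
    nlinarith
  -- comparison of sums of squares
  have hcomp : ∀ (n m : ℕ) (x : Fin n → E) (y : Fin m → E),
      (∀ φ : StrongDual ℝ E, ∑ j, φ (x j) ^ 2 = ∑ i, φ (y i) ^ 2) →
      ∑ j, ‖y j‖ ^ 2 ≤ K ^ 2 * ∑ j, ‖x j‖ ^ 2 := by
    intro n m x y h
    have h1 := htype n x
    have h2 := hcotype m y
    rw [← law_eq x y h] at h2
    nlinarith [mul_le_mul_of_nonneg_left h1 hK0]
  let N : (E →₀ ℝ) → ℝ := fun c => c.sum (fun x s => max (K ^ 2 * ‖x‖ ^ 2 * s) (‖x‖ ^ 2 * s))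
  have hNsub : ∀ (c : E →₀ ℝ) (s : Finset E), c.support ⊆ s →
      N c = ∑ x ∈ s, max (K ^ 2 * ‖x‖ ^ 2 * c x) (‖x‖ ^ 2 * c x) := by
    intro c s hs
    exact Finsupp.sum_of_support_subset _ hs _ (by simp)
  let T : StrongDual ℝ E → (E →₀ ℝ) →ₗ[ℝ] ℝ := fun φ =>
    Finsupp.linearCombination ℝ (fun x => φ x ^ 2)
  have hT : ∀ φ c, T φ c = ∑ x ∈ c.support, c x * φ x ^ 2 := by
    intro φ c
    simp [T, Finsupp.linearCombination_apply, Finsupp.sum]
  have hT1 : ∀ φ x s, T φ (Finsupp.single x s) = s * φ x ^ 2 := by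
    intro φ x s
    simp [T]
  let W : Submodule ℝ (E →₀ ℝ) := ⨅ φ, LinearMap.ker (T φ)
  have hW : ∀ c, c ∈ W ↔ ∀ φ, T φ c = 0 := by
    intro c
    simp [W, Submodule.mem_iInf]
  have hNW : ∀ c ∈ W, 0 ≤ N c := by
    intro c hc
    rw [hW] at hc
    let e := c.support.equivFin
    let x : Fin c.support.card → E := fun j =>
      Real.sqrt (max (c (e.symm j)) 0) • ((e.symm j : c.support) : E)
    let y : Fin c.support.card → E := fun j =>
      Real.sqrt (max (-c (e.symm j)) 0) • ((e.symm j : c.support) : E)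
    have hsum : ∀ f : E → ℝ, ∑ j, f ((e.symm j : c.support) : E) = ∑ x ∈ c.support, f x := by
      intro f
      rw [← Finset.sum_coe_sort c.support f]
      exact e.symm.sum_comp (fun i : c.support => f (i : E))
    have hx1 : ∀ φ : StrongDual ℝ E, ∑ j, φ (x j) ^ 2 = ∑ x ∈ c.support, max (c x) 0 * φ x ^ 2 := by
      intro φ
      rw [← hsum (fun x => max (c x) 0 * φ x ^ 2)]
      refine Finset.sum_congr rfl fun j _ => ?_
      simp only [x, map_smul, smul_eq_mul, mul_pow]
      rw [Real.sq_sqrt (le_max_right _ _)]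
    have hy1 : ∀ φ : StrongDual ℝ E, ∑ j, φ (y j) ^ 2 = ∑ x ∈ c.support, max (-c x) 0 * φ x ^ 2 := by
      intro φ
      rw [← hsum (fun x => max (-c x) 0 * φ x ^ 2)]
      refine Finset.sum_congr rfl fun j _ => ?_
      simp only [y, map_smul, smul_eq_mul, mul_pow]
      rw [Real.sq_sqrt (le_max_right _ _)]
    have hx2 : ∑ j, ‖x j‖ ^ 2 = ∑ x ∈ c.support, max (c x) 0 * ‖x‖ ^ 2 := by
      rw [← hsum (fun x => max (c x) 0 * ‖x‖ ^ 2)]
      refine Finset.sum_congr rfl fun j _ => ?_
      simp only [x, norm_smul, mul_pow, Real.norm_eq_abs, sq_abs]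
      rw [Real.sq_sqrt (le_max_right _ _)]
    have hy2 : ∑ j, ‖y j‖ ^ 2 = ∑ x ∈ c.support, max (-c x) 0 * ‖x‖ ^ 2 := by
      rw [← hsum (fun x => max (-c x) 0 * ‖x‖ ^ 2)]
      refine Finset.sum_congr rfl fun j _ => ?_
      simp only [y, norm_smul, mul_pow, Real.norm_eq_abs, sq_abs]
      rw [Real.sq_sqrt (le_max_right _ _)]
    have h1 := hcomp _ _ x y (by
      intro φ
      rw [hx1, hy1, ← sub_eq_zero, ← Finset.sum_sub_distrib]
      refine Eq.trans ?_ (hc φ)
      rw [hT]
      refine Finset.sum_congr rfl fun z _ => ?_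
      rcases le_total (c z) 0 with h | h
      · rw [max_eq_right h, max_eq_left (by linarith)]; ring
      · rw [max_eq_left h, max_eq_right (by linarith)]; ring)
    rw [hx2, hy2] at h1
    rw [hNsub c _ le_rfl]
    have h2 : ∑ x ∈ c.support, max (K ^ 2 * ‖x‖ ^ 2 * c x) (‖x‖ ^ 2 * c x) =
        K ^ 2 * (∑ x ∈ c.support, max (c x) 0 * ‖x‖ ^ 2) -
          ∑ x ∈ c.support, max (-c x) 0 * ‖x‖ ^ 2 := by
      rw [Finset.mul_sum, ← Finset.sum_sub_distrib]
      refine Finset.sum_congr rfl fun z _ => ?_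
      have hz : 0 ≤ ‖z‖ ^ 2 := by positivity
      rcases le_total (c z) 0 with h | h
      · rw [max_eq_right h, max_eq_left (by linarith : 0 ≤ -c z), max_eq_right]
        · ring
        · nlinarith [mul_nonneg hz (neg_nonneg.2 h)]
      · rw [max_eq_left h, max_eq_right (by linarith : -c z ≤ 0), max_eq_left]
        · ring
        · nlinarith [mul_nonneg hz h]
    rw [h2]
    linarith
  obtain ⟨F, hF0, hFN⟩ := exists_extension_of_le_sublinear
    (⟨W, 0⟩ : (E →₀ ℝ) →ₗ.[ℝ] ℝ) N (by
      intro r hr c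
      rw [hNsub (r • c) c.support (Finsupp.support_smul), hNsub c _ le_rfl, Finset.mul_sum]
      refine Finset.sum_congr rfl fun z _ => ?_
      rw [mul_max_of_nonneg _ _ hr.le, Finsupp.smul_apply, smul_eq_mul]
      congr 1 <;> ring) (by
      intro c d
      rw [hNsub (c + d) (c.support ∪ d.support) Finsupp.support_add,
        hNsub c (c.support ∪ d.support) Finset.subset_union_left,
        hNsub d (c.support ∪ d.support) Finset.subset_union_right, ← Finset.sum_add_distrib]
      refine Finset.sum_le_sum fun z _ => ?_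
      rw [Finsupp.add_apply, mul_add, mul_add]
      exact max_add_add_le_max_add_max) (by
      intro c
      exact hNW c.1 c.2)
  have hF : ∀ c, (∀ φ, T φ c = 0) → F c = 0 := by
    intro c hc
    exact hF0 ⟨c, (hW c).2 hc⟩
  let b : E → E → (E →₀ ℝ) := fun x y =>
    Finsupp.single (x + y) (1 / 4) - Finsupp.single (x - y) (1 / 4)
  have hb : ∀ φ x y, T φ (b x y) = φ x * φ y := by
    intro φ x y
    simp only [b, map_sub, map_add, hT1]
    ring
  have hlin : ∀ c d, (∀ φ, T φ c = T φ d) → F c = F d := by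
    intro c d hcd
    have := hF (c - d) (fun φ => by rw [map_sub, hcd, sub_self])
    rw [map_sub] at this
    linarith
  refine ⟨LinearMap.mk₂ ℝ (fun x y => F (b x y)) ?_ ?_ ?_ ?_, ?_, ?_⟩
  · intro x y z
    rw [← map_add]
    apply hlin
    intro φ
    simp only [map_add, hb]
    ring
  · intro r x y
    rw [← map_smul]
    apply hlin
    intro φ
    simp only [map_smul, hb, smul_eq_mul]
    ring
  · intro x y z
    rw [← map_add]
    apply hlin
    intro φ
    simp only [map_add, hb]
    ring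
  · intro r x y
    rw [← map_smul]
    apply hlin
    intro φ
    simp only [map_smul, hb, smul_eq_mul]
    ring
  · intro x y
    simp only [LinearMap.mk₂_apply]
    apply hlin
    intro φ
    rw [hb, hb, mul_comm]
  · intro x
    simp only [LinearMap.mk₂_apply]
    have h1 : F (b x x) = F (Finsupp.single x 1) := by
      apply hlin
      intro φ
      rw [hb, hT1]
      ring
    rw [h1]
    have hz : 0 ≤ ‖x‖ ^ 2 := by positivity
    have h2 := hFN (Finsupp.single x 1)
    have h3 := hFN (Finsupp.single x (-1))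
    have h4 : F (Finsupp.single x (-1)) = - F (Finsupp.single x 1) := by
      rw [← map_neg, Finsupp.single_neg]
    rw [h4] at h3
    have h5 : N (Finsupp.single x 1) = K ^ 2 * ‖x‖ ^ 2 := by
      simp only [N]
      rw [Finsupp.sum_single_index (by simp)]
      rw [max_eq_left]
      · ring
      · nlinarith
    have h6 : N (Finsupp.single x (-1)) = - ‖x‖ ^ 2 := by
      simp only [N]
      rw [Finsupp.sum_single_index (by simp)]
      rw [max_eq_right]
      · ring
      · nlinarith
    rw [h5] at h2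
    rw [h6] at h3
    exact ⟨by linarith, h2⟩

end DiestelL2
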