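import Pool.Agent.DiestelL2.Defs

/-!
# Separable Hilbertian spaces: `ℓ²(X) ≅ L²([0,1],X)`
-/

open MeasureTheory ProbabilityTheory
open scoped ENNReal unitInterval InnerProductSpace

namespace DiestelL2

universe u v

section general

variable {𝕜 : Type v} [RCLike 𝕜]

/-- A separable Hilbert space which contains an infinite linearly independent sequence has a
Hilbert basis indexed by `ℕ`. -/
theorem exists_basisNat (E : Type u) [NormedAddCommGroup E] [InnerProductSpace 𝕜 E]
    [CompleteSpace E] [TopologicalSpace.SeparableSpace E] (h : ¬ FiniteDimensional 𝕜 E) :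
    Nonempty (HilbertBasis ℕ 𝕜 E) := by
  obtain ⟨w, b, hb⟩ := exists_hilbertBasis 𝕜 E
  have horth : Orthonormal 𝕜 b := b.orthonormal
  have hcount : w.Countable := by
    have hdisj : w.PairwiseDisjoint (fun x : E => Metric.ball x (1 / 2)) := by
      intro x hx y hy hxy
      refine Metric.ball_disjoint_ball ?_
      have h1 : (1 / 2 : ℝ) + 1 / 2 = 1 := by norm_num
      rw [h1]
      have hne : (⟨x, hx⟩ : w) ≠ ⟨y, hy⟩ := by
        intro he
        exact hxy (congrArg Subtype.val he)
      have hx1 : ‖x‖ = 1 := by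
        have := horth.1 ⟨x, hx⟩
        rw [hb] at this
        exact this
      have hy1 : ‖y‖ = 1 := by
        have := horth.1 ⟨y, hy⟩
        rw [hb] at this
        exact this
      have hxy0 : ⟪x, y⟫_𝕜 = 0 := by
        have := horth.2 hne
        rw [hb] at this
        exact this
      have h2 : ‖x - y‖ ^ 2 = 2 := by
        rw [@norm_sub_sq 𝕜, hxy0, hx1, hy1]
        simp
        norm_num
      rw [dist_eq_norm]
      nlinarith [norm_nonneg (x - y)]
    exact hdisj.countable_of_isOpen (fun i _ => Metric.isOpen_ball)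
      (fun i _ => ⟨i, Metric.mem_ball_self (by norm_num)⟩)
  have hinf : Infinite w := by
    by_contra hfin
    rw [not_infinite_iff_finite] at hfin
    have : Fintype w := Fintype.ofFinite w
    exact h (Module.Finite.of_basis b.toOrthonormalBasis.toBasis)
  have : Countable w := hcount.to_subtype
  obtain ⟨e⟩ : Nonempty (ℕ ≃ w) := by
    obtain ⟨d⟩ := nonempty_denumerable w
    exact ⟨(@Denumerable.eqv w d).symm⟩
  refine ⟨HilbertBasis.mk (horth.comp e e.injective) ?_⟩
  have hr : Set.range (b ∘ e) = Set.range b := e.surjective.range_comp b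
  rw [hr, b.dense_span]

theorem iso_of_separable (E : Type u) [NormedAddCommGroup E] [InnerProductSpace 𝕜 E]
    [CompleteSpace E] [TopologicalSpace.SeparableSpace E] (h : ¬ FiniteDimensional 𝕜 E)
    (F : Type u) [NormedAddCommGroup F] [InnerProductSpace 𝕜 F]
    [CompleteSpace F] [TopologicalSpace.SeparableSpace F] (h' : ¬ FiniteDimensional 𝕜 F) :
    Nonempty (E ≃L[𝕜] F) := by
  obtain ⟨b⟩ := exists_basisNat (𝕜 := 𝕜) E h
  obtain ⟨b'⟩ := exists_basisNat (𝕜 := 𝕜) F h'
  exact ⟨(b.repr.trans b'.repr.symm).toContinuousLinearEquiv⟩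

/-- The map induced on `ℓ²` by a bounded operator. -/
noncomputable def ellMap {X Y : Type u} [NormedAddCommGroup X] [NormedSpace 𝕜 X]
    [NormedAddCommGroup Y] [NormedSpace 𝕜 Y] (L : X →L[𝕜] Y) : ell2V X →L[𝕜] ell2V Y :=
  LinearMap.mkContinuous
    { toFun := fun f => ⟨fun i => L (f i), by
        have hf := (lp.memℓp f).summable (by norm_num : 0 < (2 : ℝ≥0∞).toReal)
        refine memℓp_gen ?_
        refine Summable.of_nonneg_of_le (fun i => by positivity) (fun i => ?_)
          (hf.mul_left (‖L‖ ^ (2 : ℝ≥0∞).toReal))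
        rw [← Real.mul_rpow (norm_nonneg _) (norm_nonneg _)]
        exact Real.rpow_le_rpow (norm_nonneg _) (L.le_opNorm _) (by norm_num)⟩
      map_add' := by
        intro f g
        ext i
        exact L.map_add (f i) (g i)
      map_smul' := by
        intro c f
        ext i
        exact L.map_smul c (f i) } ‖L‖ (by
    intro f
    refine lp.norm_le_of_forall_sum_le (by norm_num) (by positivity) ?_
    intro s
    rw [Real.mul_rpow (norm_nonneg _) (norm_nonneg _)]
    refine le_trans ?_ (mul_le_mul_of_nonneg_left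
      (lp.sum_rpow_le_norm_rpow (by norm_num : 0 < (2 : ℝ≥0∞).toReal) f s) (by positivity))
    rw [Finset.mul_sum]
    refine Finset.sum_le_sum (fun i _ => ?_)
    rw [← Real.mul_rpow (norm_nonneg _) (norm_nonneg _)]
    exact Real.rpow_le_rpow (norm_nonneg _) (L.le_opNorm _) (by norm_num))

theorem ellMap_apply {X Y : Type u} [NormedAddCommGroup X] [NormedSpace 𝕜 X]
    [NormedAddCommGroup Y] [NormedSpace 𝕜 Y] (L : X →L[𝕜] Y) (f : ell2V X) (i : ℕ) :
    ellMap L f i = L (f i) := rfl

/-- An isomorphism `X ≃ Y` induces an isomorphism of the `ℓ²` spaces. -/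
noncomputable def ellEquiv {X Y : Type u} [NormedAddCommGroup X] [NormedSpace 𝕜 X]
    [NormedAddCommGroup Y] [NormedSpace 𝕜 Y] (e : X ≃L[𝕜] Y) : ell2V X ≃L[𝕜] ell2V Y :=
  ContinuousLinearEquiv.equivOfInverse (ellMap (e : X →L[𝕜] Y)) (ellMap (e.symm : Y →L[𝕜] X))
    (by
      intro f
      ext i
      simp [ellMap_apply])
    (by
      intro f
      ext i
      simp [ellMap_apply])

/-- An isomorphism `X ≃ Y` induces an isomorphism of the `L²` spaces. -/
noncomputable def LEquiv {X Y : Type u} [NormedAddCommGroup X] [NormedSpace 𝕜 X]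
    [NormedAddCommGroup Y] [NormedSpace 𝕜 Y] (e : X ≃L[𝕜] Y) : L2V X ≃L[𝕜] L2V Y :=
  ContinuousLinearEquiv.equivOfInverse
    ((e : X →L[𝕜] Y).compLpL 2 (volume : Measure I))
    ((e.symm : Y →L[𝕜] X).compLpL 2 (volume : Measure I))
    (by
      intro f
      refine Lp.ext ?_
      have h1 := (e.symm : Y →L[𝕜] X).coeFn_compLpL
        ((e : X →L[𝕜] Y).compLpL 2 (volume : Measure I) f)
      have h2 := (e : X →L[𝕜] Y).coeFn_compLpL f
      filter_upwards [h1, h2] with t h1 h2
      rw [h1, h2]
      simp)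
    (by
      intro f
      refine Lp.ext ?_
      have h1 := (e : X →L[𝕜] Y).coeFn_compLpL
        ((e.symm : Y →L[𝕜] X).compLpL 2 (volume : Measure I) f)
      have h2 := (e.symm : Y →L[𝕜] X).coeFn_compLpL f
      filter_upwards [h1, h2] with t h1 h2
      rw [h1, h2]
      simp)

theorem separable_ell2V (H : Type u) [NormedAddCommGroup H] [NormedSpace 𝕜 H]
    [TopologicalSpace.SeparableSpace H] :
    TopologicalSpace.SeparableSpace (ell2V H) := by
  have h1 : TopologicalSpace.IsSeparable
      (⋃ i : ℕ, Set.range (fun x : H => (lp.single 2 i x : ell2V H))) := by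
    refine TopologicalSpace.IsSeparable.iUnion (fun i => ?_)
    exact TopologicalSpace.isSeparable_range (lp.isometry_single (E := fun _ : ℕ => H) i).continuous
  have h2 := (h1.span (R := 𝕜)).closure
  rw [← TopologicalSpace.isSeparable_univ_iff]
  refine h2.mono ?_
  intro f _
  have hs := lp.hasSum_single (by norm_num : (2 : ℝ≥0∞) ≠ ⊤) f
  refine mem_closure_of_tendsto hs (Filter.Eventually.of_forall (fun s => ?_))
  refine Submodule.sum_mem _ (fun i _ => Submodule.subset_span ?_)
  exact Set.mem_iUnion.2 ⟨i, _, rfl⟩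

theorem infinite_ell2V (H : Type u) [NormedAddCommGroup H] [InnerProductSpace 𝕜 H]
    [Nontrivial H] : ¬ FiniteDimensional 𝕜 (ell2V H) := by
  intro hfin
  obtain ⟨x, hx⟩ := exists_ne (0 : H)
  have hli : LinearIndependent 𝕜 (fun i : ℕ => (lp.single 2 i x : ell2V H)) := by
    refine linearIndependent_of_ne_zero_of_inner_eq_zero ?_ ?_
    · intro i h0
      have : (lp.single 2 i x : ell2V H) i = 0 := by rw [h0]; rfl
      rw [lp.single_apply_self] at this
      exact hx this
    · intro i j hij
      rw [lp.inner_single_left, lp.single_apply_ne _ _ _ hij, inner_zero_right]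
  exact @not_finite ℕ _ hli.finite

/-- The interval `(1/(k+2), 1/(k+1)]` in `[0,1]`. -/
def cell (k : ℕ) : Set I := {t : I | 1 / ((k : ℝ) + 2) < (t : ℝ) ∧ (t : ℝ) ≤ 1 / ((k : ℝ) + 1)}

theorem cell_meas (k : ℕ) : MeasurableSet (cell k) := by
  have h1 : Measurable (fun t : I => (t : ℝ)) := measurable_subtype_coe
  exact (measurableSet_lt measurable_const h1).inter (measurableSet_le h1 measurable_const)

theorem cell_disj {j k : ℕ} (h : j ≠ k) : cell j ∩ cell k = ∅ := by
  have key : ∀ a b : ℕ, a < b → ∀ t : I, t ∈ cell a → t ∈ cell b → False := by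
    intro a b hab t ha hb
    have h1 : 1 / ((a : ℝ) + 2) < (t : ℝ) := ha.1
    have h2 : (t : ℝ) ≤ 1 / ((b : ℝ) + 1) := hb.2
    have h3 : (a : ℝ) + 2 ≤ (b : ℝ) + 1 := by
      have : a + 1 ≤ b := hab
      have : ((a + 1 : ℕ) : ℝ) ≤ b := by exact_mod_cast this
      push_cast at this
      linarith
    have h4 : 1 / ((b : ℝ) + 1) ≤ 1 / ((a : ℝ) + 2) :=
      one_div_le_one_div_of_le (by positivity) h3
    linarith
  rw [Set.eq_empty_iff_forall_notMem]
  rintro t ⟨ha, hb⟩
  rcases lt_or_gt_of_ne h with h | h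
  · exact key j k h t ha hb
  · exact key k j h t hb ha

theorem cell_pos (k : ℕ) : 0 < (volume : Measure I).real (cell k) := by
  have h1 : (0 : ℝ) ≤ 1 / ((k : ℝ) + 2) := by positivity
  have h2 : 1 / ((k : ℝ) + 1) ≤ 1 := by
    rw [div_le_one (by positivity)]
    linarith [(Nat.cast_nonneg k : (0 : ℝ) ≤ k)]
  have h3 : 1 / ((k : ℝ) + 2) < 1 / ((k : ℝ) + 1) :=
    one_div_lt_one_div_of_lt (by positivity) (by linarith)
  have himg : Subtype.val '' (cell k) = Set.Ioc (1 / ((k : ℝ) + 2)) (1 / ((k : ℝ) + 1)) := by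
    ext t
    constructor
    · rintro ⟨s, hs, rfl⟩
      exact hs
    · intro ht
      exact ⟨⟨t, by linarith [ht.1], by linarith [ht.2]⟩, ht, rfl⟩
  rw [Measure.real, unitInterval.volume_apply, himg, Real.volume_Ioc,
    ENNReal.toReal_ofReal (by linarith)]
  linarith

theorem infinite_L2V (H : Type u) [NormedAddCommGroup H] [InnerProductSpace 𝕜 H]
    [CompleteSpace H] [Nontrivial H] : ¬ FiniteDimensional 𝕜 (L2V H) := by
  intro hfin
  obtain ⟨x, hx⟩ := exists_ne (0 : H)
  have hinn : ∀ i j : ℕ,
      ⟪(indicatorConstLp 2 (cell_meas i) (measure_ne_top _ _) x : L2V H),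
        (indicatorConstLp 2 (cell_meas j) (measure_ne_top _ _) x : L2V H)⟫_𝕜
      = (volume : Measure I).real (cell i ∩ cell j) • ⟪x, x⟫_𝕜 := by
    intro i j
    exact L2.inner_indicatorConstLp_indicatorConstLp (cell_meas i) (cell_meas j) _ _ x x
  have hli : LinearIndependent 𝕜 (fun i : ℕ =>
      (indicatorConstLp 2 (cell_meas i) (measure_ne_top _ _) x : L2V H)) := by
    refine linearIndependent_of_ne_zero_of_inner_eq_zero ?_ ?_
    · intro i h0
      have h1 := hinn i i
      rw [h0, inner_zero_left, Set.inter_self] at h1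
      have h2 := h1.symm
      rw [smul_eq_zero] at h2
      rcases h2 with h2 | h2
      · exact (cell_pos i).ne' h2
      · exact hx (inner_self_eq_zero.1 h2)
    · intro i j hij
      rw [hinn i j, cell_disj hij]
      simp
  exact @not_finite ℕ _ hli.finite

end general

theorem conv : Stmt_Conv.{u, v} := by
  intro 𝕜 _ X _ _ _ hX
  obtain ⟨H, _, _, _, ⟨e⟩⟩ := hX
  have hsep : TopologicalSpace.SeparableSpace H :=
    e.surjective.denseRange.separableSpace e.continuous
  have key : Nonempty (ell2V H ≃L[𝕜] L2V H) := by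
    rcases subsingleton_or_nontrivial H with hs | hs
    · have h1 : Subsingleton (ell2V H) := ⟨fun f g => by
        ext i
        exact Subsingleton.elim _ _⟩
      have h2 : Subsingleton (L2V H) := ⟨fun f g => by
        refine Lp.ext (Filter.Eventually.of_forall (fun t => Subsingleton.elim _ _))⟩
      exact ⟨ContinuousLinearEquiv.equivOfInverse 0 0 (fun _ => Subsingleton.elim _ _)
        (fun _ => Subsingleton.elim _ _)⟩
    · have := separable_ell2V (𝕜 := 𝕜) H
      have h2 : Fact ((1 : ℝ≥0∞) ≤ 2) := ⟨by norm_num⟩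
      have h3 : Fact ((2 : ℝ≥0∞) ≠ ⊤) := ⟨by norm_num⟩
      have : SecondCountableTopology (L2V H) := Lp.SecondCountableTopology
      exact iso_of_separable (𝕜 := 𝕜) (ell2V H) (infinite_ell2V H) (L2V H) (infinite_L2V H)
  obtain ⟨k⟩ := key
  exact ⟨((ellEquiv e).trans k).trans (LEquiv e).symm⟩

end DiestelL2
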