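import Pool.Agent.DiestelL2.Cut
import Pool.Agent.DiestelL2.GL

/-!
# The cotype inequality
-/

open MeasureTheory ProbabilityTheory
open scoped ENNReal unitInterval

namespace DiestelL2

universe u v w

section

variable {ι : Type} {Z : ι → Type u} [∀ i, NormedAddCommGroup (Z i)]

theorem cut_succ [DecidableEq ι] {s t : Finset ι} (h : s ⊆ t) (w : lp Z 2) :
    cut t w = cut s w + cut (t \ s) w := by
  apply lp.ext
  funext i
  rw [lp.coeFn_add, Pi.add_apply, cut_apply, cut_apply, cut_apply]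
  by_cases h1 : i ∈ s
  · simp [h1, h h1]
  · by_cases h2 : i ∈ t <;> simp [h1, h2]

end

section

variable (𝕜 : Type v) [RCLike 𝕜] {X : Type w} [NormedAddCommGroup X] [NormedSpace 𝕜 X]

theorem app_tens (φ : StrongDual 𝕜 X) (x : X) (h : Lp 𝕜 2 (volume : Measure I)) :
    app 𝕜 φ (tens 𝕜 x h) = φ x • h := by
  apply Lp.ext
  have h1 := (ContinuousLinearMap.toSpanSingleton 𝕜 x).coeFn_compLpL (p := 2)
    (μ := (volume : Measure I)) h
  have h2 := φ.coeFn_compLpL (p := 2) (μ := (volume : Measure I)) (tens 𝕜 x h)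
  filter_upwards [h1, h2, Lp.coeFn_smul (φ x) h] with ω h3 h4 h5
  unfold app
  rw [h4, h5]
  unfold tens
  rw [h3]
  simp [mul_comm]

theorem norm_tens_le (x : X) (h : Lp 𝕜 2 (volume : Measure I)) :
    ‖tens 𝕜 x h‖ ≤ ‖x‖ * ‖h‖ := by
  have h1 : ‖(ContinuousLinearMap.toSpanSingleton 𝕜 x).compLpL 2 (volume : Measure I)‖ ≤ ‖x‖ := by
    refine (ContinuousLinearMap.norm_compLpL_le _).trans ?_
    rw [ContinuousLinearMap.norm_toSpanSingleton]
  exact (ContinuousLinearMap.le_opNorm _ _).trans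
    (mul_le_mul_of_nonneg_right h1 (norm_nonneg _))

theorem norm_app_le (φ : StrongDual 𝕜 X) (hφ : ‖φ‖ ≤ 1) (f : L2V X) :
    ‖app 𝕜 φ f‖ ≤ ‖f‖ := by
  have h1 : ‖φ.compLpL 2 (volume : Measure I)‖ ≤ 1 :=
    (ContinuousLinearMap.norm_compLpL_le _).trans hφ
  have := (ContinuousLinearMap.le_opNorm (φ.compLpL 2 (volume : Measure I)) f).trans
    (mul_le_mul_of_nonneg_right h1 (norm_nonneg f))
  rwa [one_mul] at this

end

/-- the sign -/
def sg (b : Bool) : ℝ := if b then 1 else -1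

theorem sg_not (b : Bool) : sg (!b) = - sg b := by cases b <;> simp [sg]

theorem sg_sq (b : Bool) : sg b * sg b = 1 := by cases b <;> simp [sg]

theorem sg_abs (b : Bool) : |sg b| = 1 := by cases b <;> simp [sg]

/-- averaging over signs -/
theorem sum_signs {𝕜 : Type v} [RCLike 𝕜] {V : Type w} [NormedAddCommGroup V] [NormedSpace 𝕜 V]
    {n : ℕ} (u : Fin n → V) (i : Fin n) :
    (2 : ℝ) ^ n * ‖u i‖ ^ 2 ≤ ∑ τ : Fin n → Bool, ‖∑ j, ((sg (τ j) : ℝ) : 𝕜) • u j‖ ^ 2 := by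
  classical
  let fl : (Fin n → Bool) ≃ (Fin n → Bool) :=
    { toFun := fun τ => Function.update τ i (!τ i)
      invFun := fun τ => Function.update τ i (!τ i)
      left_inv := fun τ => by simp
      right_inv := fun τ => by simp }
  set f : (Fin n → Bool) → ℝ := fun τ => ‖∑ j, ((sg (τ j) : ℝ) : 𝕜) • u j‖ ^ 2 with hf
  have h1 : ∑ τ, f (fl τ) = ∑ τ, f τ := Equiv.sum_comp fl f
  have h2 : ∀ τ, 2 * ‖u i‖ ^ 2 ≤ f τ + f (fl τ) := by
    intro τ
    set v1 := ∑ j, ((sg (τ j) : ℝ) : 𝕜) • u j with hv1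
    set v2 := ∑ j, ((sg (fl τ j) : ℝ) : 𝕜) • u j with hv2
    have h3 : v1 - v2 = ((2 * sg (τ i) : ℝ) : 𝕜) • u i := by
      rw [hv1, hv2, ← Finset.sum_sub_distrib, Finset.sum_eq_single i]
      · rw [← sub_smul]
        congr 1
        simp only [fl, Equiv.coe_fn_mk, Function.update_self, sg_not]
        push_cast
        ring
      · intro j _ hj
        simp only [fl, Equiv.coe_fn_mk, Function.update_of_ne hj, sub_self]
      · intro h
        exact absurd (Finset.mem_univ i) h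
    have h4 : ‖v1 - v2‖ = 2 * ‖u i‖ := by
      rw [h3, norm_smul, RCLike.norm_ofReal, abs_mul, sg_abs]
      norm_num
    have h5 : 2 * ‖u i‖ ≤ ‖v1‖ + ‖v2‖ := by
      rw [← h4]
      exact norm_sub_le _ _
    have h6 : f τ = ‖v1‖ ^ 2 := rfl
    have h7 : f (fl τ) = ‖v2‖ ^ 2 := rfl
    rw [h6, h7]
    have h8 : (2 * ‖u i‖) ^ 2 ≤ (‖v1‖ + ‖v2‖) ^ 2 :=
      pow_le_pow_left₀ (by positivity) h5 2
    nlinarith [sq_nonneg (‖v1‖ - ‖v2‖)]
  have h3 : ∑ _τ : Fin n → Bool, 2 * ‖u i‖ ^ 2 ≤ ∑ τ, (f τ + f (fl τ)) :=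
    Finset.sum_le_sum fun τ _ => h2 τ
  rw [Finset.sum_add_distrib, h1] at h3
  simp only [Finset.sum_const, Finset.card_univ, Fintype.card_fun, Fintype.card_bool,
    Fintype.card_fin, nsmul_eq_mul, Nat.cast_pow, Nat.cast_ofNat] at h3
  linarith

theorem cot : Stmt_Cot.{u, v, w} := by
  classical
  intro 𝕜 _ X _ _ ι Z _ _ T S g hg hST hSel n x
  obtain ⟨hmem, hae, hnorm, hadd, hsmul, hlast⟩ := gl_facts.{w, v} 𝕜 g hg
  obtain ⟨cadd, csmul, cle, -, -, -, csum⟩ := cut_facts.{u, v} 𝕜 ι Z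
  set G : ℝ := ∫ t, ‖∑ j, (t j : 𝕜) • x j‖ ^ 2 ∂(gam n) with hG
  -- norming functionals
  have hφ : ∀ j, ∃ φ : StrongDual 𝕜 X, ‖φ‖ ≤ 1 ∧ φ (x j) = ‖x j‖ := fun j =>
    exists_dual_vector'' 𝕜 (x j)
  choose φ hφ1 hφ2 using hφ
  set c : ℝ := 1 + ‖S‖ with hc
  have hc0 : 0 ≤ c := by positivity
  set C : ℝ := ∑ j, (2 * (‖S‖ * (‖T‖ * ‖x j‖)) * c + c ^ 2) with hC
  have hC0 : 0 ≤ C := Finset.sum_nonneg fun j _ => by positivity
  have key : ∀ ε : ℝ, 0 < ε → ε ≤ 1 → ∑ j, ‖x j‖ ^ 2 ≤ (‖S‖ * ‖T‖) ^ 2 * G + ε * C := by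
    intro ε hε hε1
    obtain ⟨a, s, hort, hs0, hmono, hsel⟩ := hSel (Finset.univ.image x) (Finset.univ.image φ) ε hε
    set B : ℕ → Finset ι := fun j => s (j + 1) \ s j with hB
    have hdisj : ∀ i j, i ≠ j → Disjoint (B i) (B j) := by
      have h1 : ∀ i j, i < j → Disjoint (B i) (B j) := by
        intro i j hij
        rw [Finset.disjoint_left]
        intro z hz hz'
        have h2 : z ∈ s (i + 1) := (Finset.mem_sdiff.1 hz).1
        exact (Finset.mem_sdiff.1 hz').2 (hmono (by omega) h2)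
      intro i j hij
      rcases lt_or_gt_of_ne hij with h | h
      · exact h1 i j h
      · exact (h1 j i h).symm
    let W : Fin n → lp Z 2 := fun j => T (tens 𝕜 (x j) (gl 𝕜 g (a j)))
    have hunit : ∀ j : ℕ, ‖gl 𝕜 g (a j)‖ = 1 := by
      intro j
      have h1 := hnorm (a j)
      rw [hort j j, if_pos rfl] at h1
      nlinarith [norm_nonneg (gl 𝕜 g (a j)), sq_nonneg (‖gl 𝕜 g (a j)‖ - 1)]
    have hW : ∀ j, ‖W j‖ ≤ ‖T‖ * ‖x j‖ := by
      intro j
      refine (T.le_opNorm _).trans ?_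
      refine mul_le_mul_of_nonneg_left ?_ (norm_nonneg _)
      refine (norm_tens_le 𝕜 (x j) _).trans ?_
      rw [hunit, mul_one]
    let b : Fin n → ℝ := fun j => ‖cut (B j) (W j)‖
    have hb : ∀ j, b j ≤ ‖T‖ * ‖x j‖ := fun j => (cle _ _).trans (hW j)
    have hb0 : ∀ j, 0 ≤ b j := fun j => norm_nonneg _
    -- lower bound of the blocks
    have hx : ∀ j, ‖x j‖ ≤ ‖S‖ * b j + ε * c := by
      intro j
      obtain ⟨h1, h2⟩ := hsel j (x j) (Finset.mem_image_of_mem x (Finset.mem_univ j))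
      have h3 := h2 (φ j) (Finset.mem_image_of_mem φ (Finset.mem_univ j))
      have h4 : tens 𝕜 (x j) (gl 𝕜 g (a j)) = S (cut (s j) (W j)) + S (cut (B j) (W j)) +
          S (W j - cut (s (j + 1)) (W j)) := by
        rw [← map_add, ← map_add, ← cut_succ (hmono (by omega)) (W j)]
        have : cut (s (↑j + 1)) (W j) + (W j - cut (s (↑j + 1)) (W j)) = W j := by abel
        rw [this]
        exact (hST _).symm
      have h5 : ‖app 𝕜 (φ j) (tens 𝕜 (x j) (gl 𝕜 g (a j)))‖ = ‖x j‖ := by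
        rw [app_tens, norm_smul, hunit, mul_one, hφ2]
        simp
      rw [h4, map_add, map_add] at h5
      rw [← h5]
      have h6 : ‖app 𝕜 (φ j) (S (cut (B j) (W j)))‖ ≤ ‖S‖ * b j :=
        (norm_app_le 𝕜 _ (hφ1 j) _).trans (S.le_opNorm _)
      have h7 : ‖app 𝕜 (φ j) (S (W j - cut (s (j + 1)) (W j)))‖ ≤ ‖S‖ * ε :=
        ((norm_app_le 𝕜 _ (hφ1 j) _).trans (S.le_opNorm _)).trans
          (mul_le_mul_of_nonneg_left h1 (norm_nonneg _))
      have h8 := norm_add₃_le (a := app 𝕜 (φ j) (S (cut (s j) (W j))))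
        (b := app 𝕜 (φ j) (S (cut (B j) (W j))))
        (c := app 𝕜 (φ j) (S (W j - cut (s (j + 1)) (W j))))
      rw [hc]
      nlinarith [h8, h6, h7, h3]
    -- upper bound of the blocks
    have hbsum : ∑ j, b j ^ 2 ≤ ‖T‖ ^ 2 * G := by
      have h1 : ∀ τ : Fin n → Bool,
          ∑ i : Fin n, ‖∑ j, ((sg (τ j) : ℝ) : 𝕜) • cut (B i) (W j)‖ ^ 2 ≤ ‖T‖ ^ 2 * G := by
        intro τ
        let F : L2V X := ∑ j : Fin n, tens 𝕜 (x j) (gl 𝕜 g (sg (τ j) • a j))
        have hF : ‖F‖ ^ 2 = G := by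
          refine hlast X n (fun j => sg (τ j) • a j) ?_ x
          intro i j
          rw [ip_smul, hort]
          by_cases hij : i = j
          · subst hij
            simp [sg_sq]
          · have : (i : ℕ) ≠ (j : ℕ) := fun h => hij (Fin.ext h)
            simp [hij, this]
        have hTF : T F = ∑ j, ((sg (τ j) : ℝ) : 𝕜) • W j := by
          simp only [F, map_sum]
          refine Finset.sum_congr rfl fun j _ => ?_
          rw [hsmul, map_smul, map_smul]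
        have hcut : ∀ i : Fin n, cut (B i) (T F) =
            ∑ j, ((sg (τ j) : ℝ) : 𝕜) • cut (B i) (W j) := by
          intro i
          let L : lp Z 2 →ₗ[𝕜] lp Z 2 :=
            { toFun := cut (B i)
              map_add' := cadd (B i)
              map_smul' := csmul (B i) }
          have : L (T F) = ∑ j, ((sg (τ j) : ℝ) : 𝕜) • L (W j) := by
            rw [hTF, map_sum]
            exact Finset.sum_congr rfl fun j _ => map_smul _ _ _
          exact this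
        have h2 := csum (Finset.range n) B (T F) (fun i _ j _ hij => hdisj i j hij)
        rw [Finset.sum_range] at h2
        have h3 : ‖T F‖ ^ 2 ≤ ‖T‖ ^ 2 * G := by
          rw [← hF, ← mul_pow]
          exact pow_le_pow_left₀ (norm_nonneg _) (T.le_opNorm F) 2
        refine le_trans (le_of_eq ?_) (h2.trans h3)
        exact Finset.sum_congr rfl fun i _ => by rw [hcut i]
      have h2 : ∀ i : Fin n, (2 : ℝ) ^ n * b i ^ 2 ≤
          ∑ τ : Fin n → Bool, ‖∑ j, ((sg (τ j) : ℝ) : 𝕜) • cut (B i) (W j)‖ ^ 2 := fun i =>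
        sum_signs (𝕜 := 𝕜) (fun j => cut (B i) (W j)) i
      have h3 : ∑ i, (2 : ℝ) ^ n * b i ^ 2 ≤ ∑ _τ : Fin n → Bool, ‖T‖ ^ 2 * G := by
        refine (Finset.sum_le_sum fun i _ => h2 i).trans ?_
        rw [Finset.sum_comm]
        exact Finset.sum_le_sum fun τ _ => h1 τ
      rw [← Finset.mul_sum] at h3
      simp only [Finset.sum_const, Finset.card_univ, Fintype.card_fun, Fintype.card_bool,
        Fintype.card_fin, nsmul_eq_mul, Nat.cast_pow, Nat.cast_ofNat] at h3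
      exact le_of_mul_le_mul_left h3 (by positivity)
    have hfin : ∀ j, ‖x j‖ ^ 2 ≤ ‖S‖ ^ 2 * b j ^ 2 +
        ε * (2 * (‖S‖ * (‖T‖ * ‖x j‖)) * c + c ^ 2) := by
      intro j
      have h1 : ‖x j‖ ^ 2 ≤ (‖S‖ * b j + ε * c) ^ 2 := pow_le_pow_left₀ (norm_nonneg _) (hx j) 2
      have h2 : (‖S‖ * b j + ε * c) ^ 2 = ‖S‖ ^ 2 * b j ^ 2 + ε * (2 * (‖S‖ * b j) * c)
          + (ε * ε) * c ^ 2 := by ring
      have h3 : ε * (2 * (‖S‖ * b j) * c) ≤ ε * (2 * (‖S‖ * (‖T‖ * ‖x j‖)) * c) := by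
        have := hb j
        gcongr
      have h4 : (ε * ε) * c ^ 2 ≤ ε * c ^ 2 := by
        have : ε * ε ≤ ε := by nlinarith
        gcongr
      rw [h2] at h1
      linarith
    calc ∑ j, ‖x j‖ ^ 2 ≤ ∑ j, (‖S‖ ^ 2 * b j ^ 2 +
        ε * (2 * (‖S‖ * (‖T‖ * ‖x j‖)) * c + c ^ 2)) := Finset.sum_le_sum fun j _ => hfin j
      _ = ‖S‖ ^ 2 * ∑ j, b j ^ 2 + ε * C := by
        rw [Finset.sum_add_distrib, ← Finset.mul_sum, ← Finset.mul_sum]
      _ ≤ ‖S‖ ^ 2 * (‖T‖ ^ 2 * G) + ε * C := by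
        gcongr
      _ = (‖S‖ * ‖T‖) ^ 2 * G + ε * C := by ring
  apply le_of_forall_pos_le_add
  intro δ hδ
  have hpos : 0 < min 1 (δ / (C + 1)) := lt_min one_pos (by positivity)
  have h1 := key (min 1 (δ / (C + 1))) hpos (min_le_left _ _)
  have h2 : min 1 (δ / (C + 1)) * C ≤ δ := by
    have h3 : min 1 (δ / (C + 1)) * C ≤ δ / (C + 1) * C :=
      mul_le_mul_of_nonneg_right (min_le_right _ _) hC0
    have h4 : δ / (C + 1) * C ≤ δ := by
      rw [div_mul_eq_mul_div, div_le_iff₀ (by positivity)]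
      nlinarith
    exact h3.trans h4
  linarith

end DiestelL2
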