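import Pool.Agent.DiestelL2.Defs2

/-!
# Truncations in `ℓ²`-sums
-/

open MeasureTheory ProbabilityTheory
open scoped ENNReal unitInterval

namespace DiestelL2

universe u v

section

variable {ι : Type} {Z : ι → Type u} [∀ i, NormedAddCommGroup (Z i)]

theorem cut_eq [inst : DecidableEq ι] (s : Finset ι) (w : lp Z 2) :
    cut s w = ∑ j ∈ s, lp.single 2 j (w j) := by
  have h : inst = fun a b => Classical.propDecidable (a = b) := Subsingleton.elim _ _
  rw [h]
  rfl

theorem cut_apply [DecidableEq ι] (s : Finset ι) (w : lp Z 2) (i : ι) :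
    cut s w i = if i ∈ s then w i else 0 := by
  classical
  have h1 : cut s w = ∑ j ∈ s, lp.single 2 j (w j) := cut_eq s w
  rw [h1, lp.coeFn_sum, Finset.sum_apply]
  split_ifs with hi
  · rw [Finset.sum_eq_single i]
    · simp
    · intro j _ hj
      rw [lp.single_apply_ne _ _ _ hj.symm]
    · intro h
      exact absurd hi h
  · apply Finset.sum_eq_zero
    intro j hj
    rw [lp.single_apply_ne]
    rintro rfl
    exact hi hj

theorem norm_cut_sq (s : Finset ι) (w : lp Z 2) : ‖cut s w‖ ^ 2 = ∑ i ∈ s, ‖w i‖ ^ 2 := by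
  classical
  have h1 : cut s w = ∑ j ∈ s, lp.single 2 j (w j) := cut_eq s w
  have h2 := lp.norm_sum_single (E := Z) (p := 2) (by simp) (fun i => w i) s
  have h8 : (2 : ℝ≥0∞).toReal = ((2 : ℕ) : ℝ) := by simp
  simp only [h8, Real.rpow_natCast] at h2
  rw [h1]
  exact h2

theorem sum_sq_le (s : Finset ι) (w : lp Z 2) : ∑ i ∈ s, ‖w i‖ ^ 2 ≤ ‖w‖ ^ 2 := by
  have h2 := lp.sum_rpow_le_norm_rpow (E := Z) (p := 2) (by simp) w s
  have h8 : (2 : ℝ≥0∞).toReal = ((2 : ℕ) : ℝ) := by simp
  simp only [h8, Real.rpow_natCast] at h2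
  exact h2

end

theorem cut_facts : Stmt_Cut.{u, v} := by
  classical
  intro 𝕜 _ ι Z _ _
  refine ⟨?_, ?_, ?_, ?_, ?_, ?_, ?_⟩
  · intro s w w'
    apply lp.ext
    funext i
    rw [lp.coeFn_add, Pi.add_apply, cut_apply, cut_apply, cut_apply, lp.coeFn_add, Pi.add_apply]
    split_ifs <;> simp
  · intro s c w
    apply lp.ext
    funext i
    rw [lp.coeFn_smul, Pi.smul_apply, cut_apply, cut_apply, lp.coeFn_smul, Pi.smul_apply]
    split_ifs <;> simp
  · intro s w
    have h1 := norm_cut_sq s w
    have h2 := sum_sq_le s w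
    rw [← h1] at h2
    exact (pow_le_pow_iff_left₀ (norm_nonneg _) (norm_nonneg _) two_ne_zero).1 h2
  · intro s t h w
    apply lp.ext
    funext i
    rw [lp.coeFn_add, Pi.add_apply, cut_apply, cut_apply, cut_apply]
    simp only [Finset.mem_disjUnion]
    by_cases h1 : i ∈ s
    · have h2 : i ∉ t := Finset.disjoint_left.1 h h1
      simp [h1, h2]
    · simp [h1]
  · intro w ε hε
    have h1 : HasSum (fun i => lp.single 2 i (w i)) w :=
      lp.hasSum_single (E := Z) (by simp) w
    have h1' : ∀ᶠ s : Finset ι in Filter.atTop, dist (∑ j ∈ s, lp.single 2 j (w j)) w < ε := by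
      have h2 := Metric.tendsto_nhds.1 h1 ε hε
      simpa only [SummationFilter.unconditional_filter] using h2
    obtain ⟨s, hs⟩ := Filter.eventually_atTop.1 h1'
    refine ⟨s, fun t ht => ?_⟩
    have h2 := hs t ht
    rw [dist_eq_norm, norm_sub_rev] at h2
    have h3 : cut t w = ∑ j ∈ t, lp.single 2 j (w j) := cut_eq t w
    rw [h3]
    exact h2.le
  · intro J s w hJ
    set v : lp Z 2 := ∑ j ∈ J, cut (s j) (w j) with hv
    have hvi : ∀ i, v i = ∑ j ∈ J, if i ∈ s j then w j i else 0 := by
      intro i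
      rw [hv, lp.coeFn_sum, Finset.sum_apply]
      exact Finset.sum_congr rfl fun j _ => cut_apply _ _ _
    have hin : ∀ j ∈ J, ∀ i ∈ s j, v i = w j i := by
      intro j hj i hi
      rw [hvi, Finset.sum_eq_single j]
      · simp [hi]
      · intro j' hj' hne
        rw [if_neg]
        intro h
        exact Finset.disjoint_left.1 (hJ j' hj' j hj hne) h hi
      · intro h
        exact absurd hj h
    have hout : ∀ i, i ∉ J.biUnion s → v i = 0 := by
      intro i hi
      rw [hvi]
      apply Finset.sum_eq_zero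
      intro j hj
      rw [if_neg]
      intro h
      exact hi (Finset.mem_biUnion.2 ⟨j, hj, h⟩)
    have h1 : v = cut (J.biUnion s) v := by
      apply lp.ext
      funext i
      rw [cut_apply]
      split_ifs with h
      · rfl
      · exact hout i h
    have h2 : ‖v‖ ^ 2 = ∑ i ∈ J.biUnion s, ‖v i‖ ^ 2 := by
      conv_lhs => rw [h1]
      exact norm_cut_sq _ _
    rw [h2, Finset.sum_biUnion]
    · refine Finset.sum_congr rfl fun j hj => ?_
      rw [norm_cut_sq]
      refine Finset.sum_congr rfl fun i hi => ?_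
      rw [hin j hj i hi]
    · intro j hj j' hj' hne
      exact hJ j hj j' hj' hne
  · intro J s w hJ
    have h1 : ∑ j ∈ J, ‖cut (s j) w‖ ^ 2 = ∑ i ∈ J.biUnion s, ‖w i‖ ^ 2 := by
      rw [Finset.sum_biUnion]
      · exact Finset.sum_congr rfl fun j _ => norm_cut_sq _ _
      · intro j hj j' hj' hne
        exact hJ j hj j' hj' hne
    rw [h1]
    exact sum_sq_le _ _

end DiestelL2
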