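import Mathlib

/-!
# ℓ²(X) versus L²([0,1],X): definitions and module statements

`MP_19fa38_an`.  Real or complex scalars `𝕜`.
-/

open MeasureTheory ProbabilityTheory
open scoped ENNReal unitInterval

namespace DiestelL2

universe u v

/-- The scalar sequence space `ℓ²`. -/
noncomputable abbrev ell2 (𝕜 : Type*) [RCLike 𝕜] := lp (fun _ : ℕ => 𝕜) 2

/-- `ℓ²(X)`. -/
noncomputable abbrev ell2V (X : Type*) [NormedAddCommGroup X] := lp (fun _ : ℕ => X) 2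

/-- The Lebesgue-Bochner space `L²([0,1],X)`. -/
noncomputable abbrev L2V (X : Type*) [NormedAddCommGroup X] := Lp X 2 (volume : Measure I)

/-- `X` contains a complemented (isomorphic) copy of `ℓ²`: there is a bounded linear map
`A : ℓ² → X` which has a bounded linear left inverse `B : X → ℓ²`. -/
def HasComplementedEll2 (𝕜 : Type*) [RCLike 𝕜] (X : Type*) [NormedAddCommGroup X]
    [NormedSpace 𝕜 X] : Prop :=
  ∃ (A : ell2 𝕜 →L[𝕜] X) (B : X →L[𝕜] ell2 𝕜), B ∘L A = ContinuousLinearMap.id 𝕜 (ell2 𝕜)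

/-- `X` is isomorphic (as a Banach space) to a Hilbert space. -/
def IsHilbertian (𝕜 : Type*) [RCLike 𝕜] (X : Type u) [NormedAddCommGroup X]
    [NormedSpace 𝕜 X] : Prop :=
  ∃ (H : Type u) (_ : NormedAddCommGroup H) (_ : InnerProductSpace 𝕜 H) (_ : CompleteSpace H),
    Nonempty (X ≃L[𝕜] H)

/-- standard Gaussian measure on `Fin n → ℝ` -/
noncomputable abbrev gam (n : ℕ) : Measure (Fin n → ℝ) :=
  Measure.pi (fun _ : Fin n => gaussianReal 0 1)

/-! ## Module statements -/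

/-- Kwapień / Lindenstrauss–Pełczyński step (real scalars, no completeness needed). -/
def Stmt_Kwap : Prop :=
  ∀ (E : Type u) [NormedAddCommGroup E] [NormedSpace ℝ E] (K : ℝ),
    0 ≤ K →
    (∀ (n : ℕ) (x : Fin n → E),
      ∫ t, ‖∑ j, t j • x j‖ ^ 2 ∂(gam n) ≤ K * ∑ j, ‖x j‖ ^ 2) →
    (∀ (n : ℕ) (x : Fin n → E),
      ∑ j, ‖x j‖ ^ 2 ≤ K * ∫ t, ‖∑ j, t j • x j‖ ^ 2 ∂(gam n)) →
    ∃ B : E →ₗ[ℝ] E →ₗ[ℝ] ℝ, (∀ x y, B x y = B y x) ∧
      ∀ x, ‖x‖ ^ 2 ≤ B x x ∧ B x x ≤ K ^ 2 * ‖x‖ ^ 2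

/-- A Banach space over `𝕜` with an equivalent real Hilbertian form is isomorphic over `𝕜` to a
Hilbert space.  (Real multiples are taken inside `𝕜`; the form is a function `X → X → ℝ`.) -/
def Stmt_Hil : Prop :=
  ∀ (𝕜 : Type v) [RCLike 𝕜] (X : Type u) [NormedAddCommGroup X] [NormedSpace 𝕜 X]
    [CompleteSpace X] (B : X → X → ℝ) (C : ℝ),
    (∀ x y z, B (x + y) z = B x z + B y z) →
    (∀ (c : ℝ) x y, B ((c : 𝕜) • x) y = c * B x y) →
    (∀ x y, B x y = B y x) →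
    (∀ x, ‖x‖ ^ 2 ≤ B x x) → (∀ x, B x x ≤ C * ‖x‖ ^ 2) →
    IsHilbertian 𝕜 X

/-- Separable Hilbertian spaces: `ℓ²(X) ≅ L²([0,1],X)`. -/
def Stmt_Conv : Prop :=
  ∀ (𝕜 : Type v) [RCLike 𝕜] (X : Type u) [NormedAddCommGroup X] [NormedSpace 𝕜 X]
    [TopologicalSpace.SeparableSpace X],
    IsHilbertian 𝕜 X → Nonempty (ell2V X ≃L[𝕜] L2V X)

/-- A Hilbertian space without complemented copy of `ℓ²` is finite dimensional, and finite
dimensional spaces are Hilbertian and contain no (complemented) copy of `ℓ²`. -/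
def Stmt_FD : Prop :=
  ∀ (𝕜 : Type v) [RCLike 𝕜] (X : Type u) [NormedAddCommGroup X] [NormedSpace 𝕜 X]
    [CompleteSpace X],
    (IsHilbertian 𝕜 X → ¬ HasComplementedEll2 𝕜 X → FiniteDimensional 𝕜 X) ∧
    (FiniteDimensional 𝕜 X → IsHilbertian 𝕜 X ∧ ¬ HasComplementedEll2 𝕜 X)

/-- Dichotomy: an operator between Hilbert spaces which factors through a space without
complemented copy of `ℓ²` is small on a subspace of finite codimension. -/
def Stmt_Dich : Prop :=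
  ∀ (𝕜 : Type v) [RCLike 𝕜] (Z : Type u) [NormedAddCommGroup Z] [NormedSpace 𝕜 Z],
    ¬ HasComplementedEll2 𝕜 Z →
    ∀ (H L : Type v) [NormedAddCommGroup H] [InnerProductSpace 𝕜 H] [CompleteSpace H]
      [NormedAddCommGroup L] [InnerProductSpace 𝕜 L] [CompleteSpace L]
      (Θ : H →L[𝕜] Z) (V : Z →L[𝕜] L) (δ : ℝ), 0 < δ →
      ∃ F : Submodule 𝕜 H, FiniteDimensional 𝕜 F ∧ ∀ h ∈ Fᗮ, ‖V (Θ h)‖ ≤ δ * ‖h‖

/-- `ℓ²(⊕₂ Z_i)` is (complemented in) the `ℓ²`-sum of the `Z_i` over `ℕ × ι`. -/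
def Stmt_Double : Prop :=
  ∀ (𝕜 : Type v) [RCLike 𝕜] (ι : Type) (Z : ι → Type u) [∀ i, NormedAddCommGroup (Z i)]
    [∀ i, NormedSpace 𝕜 (Z i)],
    ∃ (A : ell2V (lp Z 2) →L[𝕜] lp (fun p : ℕ × ι => Z p.2) 2)
      (B : lp (fun p : ℕ × ι => Z p.2) 2 →L[𝕜] ell2V (lp Z 2)),
      B ∘L A = ContinuousLinearMap.id 𝕜 _

/-- A sequence of independent standard Gaussians on `[0,1]`, in the form in which it is used:
orthonormal (finite) linear combinations have the standard Gaussian law. -/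
def Stmt_Gauss : Prop :=
  ∃ g : ℕ → I → ℝ, (∀ k, Measurable (g k)) ∧
    ∀ (n : ℕ) (a : Fin n → ℕ →₀ ℝ),
      (∀ i j, (a i).sum (fun k c => c * a j k) = if i = j then 1 else 0) →
      (volume : Measure I).map (fun ω i => (a i).sum (fun k c => c * g k ω)) = gam n

end DiestelL2
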