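import Pool.Agent.DiestelL2.Defs

/-!
# Operators between Hilbert spaces which factor through a space without complemented `ℓ²`
-/

open MeasureTheory ProbabilityTheory
open scoped ENNReal unitInterval InnerProductSpace

namespace DiestelL2

universe u v

theorem dich : Stmt_Dich.{u, v} := by
  intro 𝕜 _ Z _ _ hZ H L _ _ _ _ _ _ Θ V δ hδ
  by_contra hcon
  push Not at hcon
  apply hZ
  set R : H →L[𝕜] L := V ∘L Θ with hR
  -- the sequence
  obtain ⟨h, hP, hr⟩ := exists_seq_of_forall_finset_exists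
    (fun x : H => ‖x‖ = 1 ∧ δ ≤ ‖R x‖)
    (fun x y : H => inner 𝕜 x y = 0 ∧ inner 𝕜 (R x) (R y) = 0) (by
      classical
      intro s _
      let F : Submodule 𝕜 H := Submodule.span 𝕜
        (((s : Set H)) ∪ (fun x => (ContinuousLinearMap.adjoint R) (R x)) '' (s : Set H))
      have hF : FiniteDimensional 𝕜 F := by
        apply FiniteDimensional.span_of_finite
        exact (s.finite_toSet).union ((s.finite_toSet).image _)
      obtain ⟨y, hyF, hy⟩ := hcon F hF
      have hy0 : y ≠ 0 := by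
        rintro rfl
        simp at hy
      have hyn : 0 < ‖y‖ := norm_pos_iff.2 hy0
      refine ⟨((‖y‖⁻¹ : ℝ) : 𝕜) • y, ⟨?_, ?_⟩, ?_⟩
      · rw [norm_smul]
        simp [hyn.ne']
      · rw [map_smul, norm_smul]
        have h1 : ‖((‖y‖⁻¹ : ℝ) : 𝕜)‖ = ‖y‖⁻¹ := by simp
        rw [h1, inv_mul_eq_div, le_div_iff₀ hyn]
        exact hy.le
      · intro x hx
        have h1 : inner 𝕜 x y = 0 := by
          rw [Submodule.mem_orthogonal] at hyF
          exact hyF x (Submodule.subset_span (Or.inl hx))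
        have h2 : inner 𝕜 (R x) (R y) = 0 := by
          rw [Submodule.mem_orthogonal] at hyF
          have := hyF ((ContinuousLinearMap.adjoint R) (R x))
            (Submodule.subset_span (Or.inr ⟨x, hx, rfl⟩))
          rwa [ContinuousLinearMap.adjoint_inner_left] at this
        refine ⟨?_, ?_⟩
        · rw [inner_smul_right, h1, mul_zero]
        · rw [map_smul, inner_smul_right, h2, mul_zero])
  have hort : Orthonormal 𝕜 h := by
    refine ⟨fun i => (hP i).1, fun i j hij => ?_⟩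
    rcases lt_or_gt_of_ne hij with h1 | h1
    · exact (hr i j h1).1
    · exact inner_eq_zero_symm.1 (hr j i h1).1
  have hRort : ∀ i j, i ≠ j → inner 𝕜 (R (h i)) (R (h j)) = 0 := by
    intro i j hij
    rcases lt_or_gt_of_ne hij with h1 | h1
    · exact (hr i j h1).2
    · exact inner_eq_zero_symm.1 (hr j i h1).2
  have hRpos : ∀ i, 0 < ‖R (h i)‖ := fun i => lt_of_lt_of_le hδ (hP i).2
  let U : ell2 𝕜 →ₗᵢ[𝕜] H := hort.orthogonalFamily.linearIsometry
  have hU : ∀ c : ell2 𝕜, HasSum (fun i => c i • h i) (U c) := by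
    intro c
    have := hort.orthogonalFamily.hasSum_linearIsometry c
    simpa using this
  let J : ell2 𝕜 →L[𝕜] L := R ∘L U.toContinuousLinearMap
  have hJ : ∀ (c : ell2 𝕜) (k : ℕ), inner 𝕜 (R (h k)) (J c) = c k * (‖R (h k)‖ : 𝕜) ^ 2 := by
    intro c k
    have h1 : HasSum (fun i => inner 𝕜 (R (h k)) (R (c i • h i))) (inner 𝕜 (R (h k)) (J c)) :=
      ((hU c).mapL R).mapL (innerSL 𝕜 (R (h k)))
    have h2 : HasSum (fun i => inner 𝕜 (R (h k)) (R (c i • h i)))
        (inner 𝕜 (R (h k)) (R (c k • h k))) := by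
      apply hasSum_single
      intro i hi
      rw [map_smul, inner_smul_right, hRort k i hi.symm, mul_zero]
    rw [h1.unique h2, map_smul, inner_smul_right, inner_self_eq_norm_sq_to_K]
  have hw : Orthonormal 𝕜 (fun k => ((‖R (h k)‖⁻¹ : ℝ) : 𝕜) • R (h k)) := by
    refine ⟨fun i => ?_, fun i j hij => ?_⟩
    · rw [norm_smul]
      simp [(hRpos i).ne']
    · simp only [inner_smul_left, inner_smul_right, hRort i j hij, mul_zero]
  have hbound : ∀ c : ell2 𝕜, ‖c‖ ≤ δ⁻¹ * ‖J c‖ := by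
    intro c
    have hp : 0 < (2 : ℝ≥0∞).toReal := by simp
    refine lp.norm_le_of_forall_sum_le hp (by positivity) ?_
    intro s
    have h1 := hw.sum_inner_products_le (s := s) (J c)
    have h2 : ∀ k, δ * ‖c k‖ ≤ ‖inner 𝕜 (((‖R (h k)‖⁻¹ : ℝ) : 𝕜) • R (h k)) (J c)‖ := by
      intro k
      rw [inner_smul_left, hJ, norm_mul, norm_mul, norm_pow]
      have h3 : ‖(starRingEnd 𝕜) ((‖R (h k)‖⁻¹ : ℝ) : 𝕜)‖ = ‖R (h k)‖⁻¹ := by
        rw [RCLike.norm_conj]
        simp
      have h4 : ‖(‖R (h k)‖ : 𝕜)‖ = ‖R (h k)‖ := by simp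
      rw [h3, h4]
      have h5 : ‖R (h k)‖⁻¹ * (‖c k‖ * ‖R (h k)‖ ^ 2) = ‖R (h k)‖ * ‖c k‖ := by
        have := (hRpos k).ne'
        field_simp
      rw [h5]
      exact mul_le_mul_of_nonneg_right (hP k).2 (norm_nonneg _)
    have h6 : ∑ k ∈ s, (δ * ‖c k‖) ^ 2 ≤ ‖J c‖ ^ 2 := by
      refine le_trans (Finset.sum_le_sum fun k _ => ?_) h1
      exact pow_le_pow_left₀ (by positivity) (h2 k) 2
    have h7 : ∑ k ∈ s, ‖c k‖ ^ 2 = (δ⁻¹) ^ 2 * ∑ k ∈ s, (δ * ‖c k‖) ^ 2 := by
      rw [Finset.mul_sum]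
      refine Finset.sum_congr rfl fun k _ => ?_
      field_simp
    have h8 : (2 : ℝ≥0∞).toReal = ((2 : ℕ) : ℝ) := by simp
    simp only [h8, Real.rpow_natCast]
    rw [h7, mul_pow]
    exact mul_le_mul_of_nonneg_left h6 (by positivity)
  have hanti : AntilipschitzWith (⟨δ⁻¹, by positivity⟩ : NNReal) J :=
    AddMonoidHomClass.antilipschitz_of_bound J hbound
  have hclosed : IsClosed (Set.range J) := hanti.isClosed_range J.uniformContinuous
  have hinj : Function.Injective J := hanti.injective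
  have : CompleteSpace J.range := hclosed.completeSpace_coe
  refine ⟨Θ ∘L U.toContinuousLinearMap,
    ((J.equivRange hinj hclosed).symm : J.range →L[𝕜] ell2 𝕜) ∘L (J.range.orthogonalProjectionOnto ∘L V),
    ?_⟩
  ext1 c
  have h1 : V (Θ (U c)) = ((⟨J c, LinearMap.mem_range_self _ c⟩ : J.range) : L) := rfl
  simp only [ContinuousLinearMap.comp_apply, ContinuousLinearMap.id_apply]
  change (J.equivRange hinj hclosed).symm (J.range.orthogonalProjectionOnto (V (Θ (U c)))) = c
  rw [h1, Submodule.orthogonalProjectionOnto_mem_subspace_eq_self]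
  rw [ContinuousLinearEquiv.symm_apply_eq]
  rfl

end DiestelL2
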