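import Pool.Agent.DiestelL2.Defs

/-!
# Finite dimensional spaces
-/

open MeasureTheory ProbabilityTheory
open scoped ENNReal unitInterval InnerProductSpace

namespace DiestelL2

universe u v

lemma ell2_infinite (𝕜 : Type v) [RCLike 𝕜] : ¬ FiniteDimensional 𝕜 (ell2 𝕜) := by
  intro h
  let b : HilbertBasis ℕ 𝕜 (ell2 𝕜) := HilbertBasis.ofRepr (LinearIsometryEquiv.refl 𝕜 _)
  have h1 : LinearIndependent 𝕜 (fun i : ℕ => b i) := b.orthonormal.linearIndependent
  have h2 : Finite ℕ := h1.finite
  exact not_finite ℕ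

/-- an infinite dimensional Hilbert space contains a complemented copy of `ℓ²` -/
lemma complemented_of_infinite (𝕜 : Type v) [RCLike 𝕜] (H : Type u) [NormedAddCommGroup H]
    [InnerProductSpace 𝕜 H] [CompleteSpace H] (h : ¬ FiniteDimensional 𝕜 H) :
    HasComplementedEll2 𝕜 H := by
  obtain ⟨w, b, hb⟩ := exists_hilbertBasis 𝕜 H
  have hw : w.Infinite := by
    intro hfin
    apply h
    have h1 : (Submodule.span 𝕜 (Set.range b)).topologicalClosure = ⊤ := b.dense_span
    have h2 : (Set.range b).Finite := by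
      rw [hb, Subtype.range_coe]
      exact hfin
    have h3 : FiniteDimensional 𝕜 (Submodule.span 𝕜 (Set.range b)) :=
      FiniteDimensional.span_of_finite 𝕜 h2
    have h4 : IsClosed ((Submodule.span 𝕜 (Set.range b) : Submodule 𝕜 H) : Set H) :=
      Submodule.closed_of_finiteDimensional _
    rw [h4.submodule_topologicalClosure_eq] at h1
    rw [h1] at h3
    exact (Submodule.topEquiv (R := 𝕜) (M := H)).finiteDimensional
  let f : ℕ ↪ w := hw.natEmbedding
  have ho : Orthonormal 𝕜 (fun k : ℕ => b (f k)) := b.orthonormal.comp f f.injective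
  let U : ell2 𝕜 →ₗᵢ[𝕜] H := ho.orthogonalFamily.linearIsometry
  refine ⟨U.toContinuousLinearMap, ContinuousLinearMap.adjoint U.toContinuousLinearMap, ?_⟩
  ext1 c
  apply ext_inner_left 𝕜
  intro d
  rw [ContinuousLinearMap.comp_apply, ContinuousLinearMap.adjoint_inner_right,
    ContinuousLinearMap.id_apply]
  exact U.inner_map_map d c

lemma hilbert_model (𝕜 : Type v) [RCLike 𝕜] (X : Type u) [AddCommGroup X] [Module 𝕜 X]
    [FiniteDimensional 𝕜 X] :
    ∃ (H : Type u) (_ : NormedAddCommGroup H) (_ : InnerProductSpace 𝕜 H) (_ : CompleteSpace H),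
      Nonempty (X ≃ₗ[𝕜] H) := by
  let n := Module.finrank 𝕜 X
  let f : X ≃ₗ[𝕜] EuclideanSpace 𝕜 (Fin n) :=
    LinearEquiv.ofFinrankEq X (EuclideanSpace 𝕜 (Fin n)) (by simp [n])
  let core : InnerProductSpace.Core 𝕜 X :=
    { inner := fun x y => inner 𝕜 (f x) (f y)
      conj_inner_symm := fun x y => inner_conj_symm _ _
      re_inner_nonneg := fun x => inner_self_nonneg
      add_left := fun x y z => by rw [map_add, inner_add_left]
      smul_left := fun x y r => by rw [map_smul, inner_smul_left]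
      definite := fun x hx => by
        have : f x = 0 := inner_self_eq_zero.1 hx
        exact (map_eq_zero_iff f f.injective).1 this }
  let i1 : NormedAddCommGroup X := core.toNormedAddCommGroup
  let i2 : InnerProductSpace 𝕜 X := InnerProductSpace.ofCore core.toCore
  refine ⟨X, i1, i2, FiniteDimensional.complete 𝕜 X, ⟨LinearEquiv.refl 𝕜 X⟩⟩

theorem fd : Stmt_FD.{u, v} := by
  intro 𝕜 _ X _ _ _
  refine ⟨?_, ?_⟩
  · rintro ⟨H, _, _, _, ⟨e⟩⟩ hX
    by_contra hfd
    apply hX
    obtain ⟨A, B, hAB⟩ := complemented_of_infinite 𝕜 H (by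
      intro h
      exact hfd (e.symm.toLinearEquiv.finiteDimensional))
    refine ⟨(e.symm : H →L[𝕜] X) ∘L A, B ∘L (e : X →L[𝕜] H), ?_⟩
    ext1 c
    have := congrArg (fun T => T c) hAB
    simpa using this
  · intro hfd
    refine ⟨?_, ?_⟩
    · obtain ⟨H, i1, i2, i3, ⟨e⟩⟩ := hilbert_model 𝕜 X
      exact ⟨H, i1, i2, i3, ⟨e.toContinuousLinearEquiv⟩⟩
    · rintro ⟨A, B, hAB⟩
      apply ell2_infinite 𝕜
      have hinj : Function.Injective A := by
        apply Function.LeftInverse.injective (g := B)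
        intro c
        exact congrArg (fun T => T c) hAB
      exact FiniteDimensional.of_injective A.toLinearMap hinj

end DiestelL2
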