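import Pool.Agent.DiestelL2.Defs

/-!
# Independent Gaussians on the unit interval
-/

open MeasureTheory ProbabilityTheory
open scoped ENNReal unitInterval

namespace DiestelL2

/-- characteristic function of the standard Gaussian measure on `ι → ℝ` -/
lemma charFunDual_gamPi {ι : Type*} [Fintype ι] [DecidableEq ι] (L : StrongDual ℝ (ι → ℝ)) :
    charFunDual (Measure.pi (fun _ : ι => gaussianReal 0 1)) L =
      Complex.exp (-((∑ i, (L (Pi.single i 1)) ^ 2 : ℝ) : ℂ) / 2) := by
  rw [charFunDual_pi]
  have h : ∀ i : ι, charFunDual (gaussianReal 0 1) (L.comp (.single ℝ (fun _ : ι => ℝ) i)) =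
      Complex.exp (-(((L (Pi.single i 1)) ^ 2 : ℝ) : ℂ) / 2) := by
    intro i
    have h1 : (L.comp (.single ℝ (fun _ : ι => ℝ) i)) =
        InnerProductSpace.toDualMap ℝ ℝ (L (Pi.single i 1)) := by
      ext
      simp
    rw [h1, ← charFun_eq_charFunDual_toDualMap, charFun_gaussianReal]
    congr 1
    simp
    ring
  rw [Finset.prod_congr rfl (fun i _ => h i), ← Complex.exp_sum]
  congr 1
  push_cast
  rw [← Finset.sum_div, Finset.sum_neg_distrib]

/-- image of a standard Gaussian vector under a map with orthonormal rows -/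
lemma map_orth {ι : Type*} [Fintype ι] [DecidableEq ι] (n : ℕ) (a : Fin n → ι → ℝ)
    (ha : ∀ i j, ∑ k, a i k * a j k = if i = j then 1 else 0) :
    (Measure.pi (fun _ : ι => gaussianReal 0 1)).map (fun x i => ∑ k, a i k * x k) = gam n := by
  classical
  let A : (ι → ℝ) →L[ℝ] (Fin n → ℝ) :=
    ContinuousLinearMap.pi (fun i => ∑ k, a i k • ContinuousLinearMap.proj k)
  have hA : (fun (x : ι → ℝ) (i : Fin n) => ∑ k, a i k * x k) = A := by
    funext x i
    simp [A]
  rw [hA]
  have : IsProbabilityMeasure ((Measure.pi (fun _ : ι => gaussianReal 0 1)).map A) :=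
    Measure.isProbabilityMeasure_map (A.continuous.measurable.aemeasurable)
  apply Measure.ext_of_charFunDual
  funext L
  rw [charFunDual_map, charFunDual_gamPi, charFunDual_gamPi]
  congr 4
  have h1 : ∀ k, (L.comp A) (Pi.single k 1) = ∑ i, L (Pi.single i 1) * a i k := by
    intro k
    have h2 : A (Pi.single k 1) = ∑ i, a i k • (Pi.single i 1 : Fin n → ℝ) := by
      funext i
      simp [A, Finset.sum_apply, Pi.single_apply]
    rw [ContinuousLinearMap.comp_apply, h2, map_sum]
    refine Finset.sum_congr rfl fun i _ => ?_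
    rw [map_smul, smul_eq_mul, mul_comm]
  simp_rw [h1]
  calc ∑ k, (∑ i, L (Pi.single i 1) * a i k) ^ 2
      = ∑ k, ∑ i, ∑ j, (L (Pi.single i 1) * L (Pi.single j 1)) * (a i k * a j k) := by
        refine Finset.sum_congr rfl fun k _ => ?_
        rw [sq, Finset.sum_mul_sum]
        refine Finset.sum_congr rfl fun i _ => Finset.sum_congr rfl fun j _ => ?_
        ring
    _ = ∑ i, ∑ j, (L (Pi.single i 1) * L (Pi.single j 1)) * ∑ k, a i k * a j k := by
        rw [Finset.sum_comm]
        refine Finset.sum_congr rfl fun i _ => ?_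
        rw [Finset.sum_comm]
        refine Finset.sum_congr rfl fun j _ => ?_
        rw [Finset.mul_sum]
    _ = ∑ i, (L (Pi.single i 1)) ^ 2 := by
        refine Finset.sum_congr rfl fun i _ => ?_
        simp_rw [ha]
        simp [sq]

theorem gauss : Stmt_Gauss := by
  classical
  obtain ⟨f, hf, hmap⟩ := Measure.exists_measurable_map_eq
    (Measure.infinitePi (fun _ : ℕ => gaussianReal 0 1))
  refine ⟨fun k ω => f ω k, fun k => (measurable_pi_apply k).comp hf, ?_⟩
  intro n a ha
  let s : Finset ℕ := Finset.univ.biUnion fun i => (a i).support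
  have hs : ∀ i, (a i).support ⊆ s := fun i =>
    Finset.subset_biUnion_of_mem (fun i => (a i).support) (Finset.mem_univ i)
  have h1 : (fun (ω : I) (i : Fin n) => (a i).sum (fun k c => c * f ω k)) =
      (fun (x : s → ℝ) (i : Fin n) => ∑ k : s, a i k * x k) ∘ (s.restrict) ∘ f := by
    funext ω i
    simp only [Function.comp]
    rw [Finsupp.sum_of_support_subset _ (hs i) _ (by simp)]
    rw [← Finset.sum_coe_sort]
    rfl
  have hm1 : Measurable (fun (x : s → ℝ) (i : Fin n) => ∑ k : s, a i k * x k) := by
    fun_prop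
  have hm2 : Measurable (s.restrict (π := fun _ : ℕ => ℝ)) := Finset.measurable_restrict s
  rw [h1, ← Measure.map_map hm1 (hm2.comp hf), ← Measure.map_map hm2 hf, hmap,
    Measure.infinitePi_map_restrict]
  apply map_orth
  intro i j
  rw [← ha i j, Finsupp.sum_of_support_subset _ (hs i) _ (by simp)]
  exact Finset.sum_coe_sort s (fun k => a i k * a j k)

end DiestelL2
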