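import Pool.Agent.DiestelL2.Defs2

/-!
# Selection of Gaussian variables (gliding hump)
-/

open MeasureTheory ProbabilityTheory
open scoped ENNReal unitInterval InnerProductSpace

set_option linter.unusedSectionVars false

namespace DiestelL2

universe u v w

section

variable {𝕜 : Type v} [RCLike 𝕜] {X : Type w} [NormedAddCommGroup X] [NormedSpace 𝕜 X]
  {ι : Type} {Z : ι → Type u} [∀ i, NormedAddCommGroup (Z i)] [∀ i, NormedSpace 𝕜 (Z i)]

/-- finitely many operators through truncations are small on a finite codimensional subspace -/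
theorem small_one (hD : Stmt_Dich.{u, v}) (hZ : ∀ i, ¬ HasComplementedEll2 𝕜 (Z i))
    (T : L2V X →L[𝕜] lp Z 2) (S : lp Z 2 →L[𝕜] L2V X) (s : Finset ι) (y : X)
    (φ : StrongDual 𝕜 X) {ε : ℝ} (hε : 0 < ε) :
    ∃ F : Submodule 𝕜 (Lp 𝕜 2 (volume : Measure I)), FiniteDimensional 𝕜 F ∧
      ∀ h ∈ Fᗮ, ‖app 𝕜 φ (S (cut s (T (tens 𝕜 y h))))‖ ≤ ε * ‖h‖ := by
  classical
  set δ : ℝ := ε / (s.card + 1) with hδ
  have hδ0 : 0 < δ := by positivity
  have key : ∀ i : ι, ∃ F : Submodule 𝕜 (Lp 𝕜 2 (volume : Measure I)), FiniteDimensional 𝕜 F ∧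
      ∀ h ∈ Fᗮ, ‖app 𝕜 φ (S (lp.single 2 i ((T (tens 𝕜 y h)) i)))‖ ≤ δ * ‖h‖ := by
    intro i
    have h1 := hD 𝕜 (Z i) (hZ i) (Lp 𝕜 2 (volume : Measure I)) (Lp 𝕜 2 (volume : Measure I))
      ((lp.evalCLM 𝕜 Z 2 i) ∘L (T ∘L (tens 𝕜 y)))
      ((app 𝕜 φ) ∘L (S ∘L (lp.singleContinuousLinearMap 𝕜 Z 2 i))) δ hδ0
    exact h1
  choose F hF hFs using key
  refine ⟨s.sup F, ?_, ?_⟩
  · exact Submodule.finiteDimensional_finset_sup s F
  · intro h hh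
    have h1 : ∀ i ∈ s, h ∈ (F i)ᗮ := by
      intro i hi
      exact Submodule.orthogonal_le (Finset.le_sup hi) hh
    have h2 : app 𝕜 φ (S (cut s (T (tens 𝕜 y h))))
        = ∑ i ∈ s, app 𝕜 φ (S (lp.single 2 i ((T (tens 𝕜 y h)) i))) := by
      unfold cut
      rw [map_sum, map_sum]
    rw [h2]
    calc ‖∑ i ∈ s, app 𝕜 φ (S (lp.single 2 i ((T (tens 𝕜 y h)) i)))‖
        ≤ ∑ i ∈ s, ‖app 𝕜 φ (S (lp.single 2 i ((T (tens 𝕜 y h)) i)))‖ := norm_sum_le _ _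
      _ ≤ ∑ i ∈ s, δ * ‖h‖ := Finset.sum_le_sum fun i hi => hFs i h (h1 i hi)
      _ = s.card * δ * ‖h‖ := by rw [Finset.sum_const, nsmul_eq_mul]; ring
      _ ≤ ε * ‖h‖ := by
        apply mul_le_mul_of_nonneg_right _ (norm_nonneg h)
        rw [hδ, mul_div_assoc', div_le_iff₀ (by positivity)]
        nlinarith

theorem small_all (hD : Stmt_Dich.{u, v}) (hZ : ∀ i, ¬ HasComplementedEll2 𝕜 (Z i))
    (T : L2V X →L[𝕜] lp Z 2) (S : lp Z 2 →L[𝕜] L2V X) (A : Finset (Finset ι)) (Y : Finset X)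
    (Φ : Finset (StrongDual 𝕜 X)) {ε : ℝ} (hε : 0 < ε) :
    ∃ F : Submodule 𝕜 (Lp 𝕜 2 (volume : Measure I)), FiniteDimensional 𝕜 F ∧
      ∀ h ∈ Fᗮ, ∀ s ∈ A, ∀ y ∈ Y, ∀ φ ∈ Φ,
        ‖app 𝕜 φ (S (cut s (T (tens 𝕜 y h))))‖ ≤ ε * ‖h‖ := by
  classical
  have key := fun (q : Finset ι × X × StrongDual 𝕜 X) =>
    small_one hD hZ T S q.1 q.2.1 q.2.2 hε
  choose F hF hFs using key
  refine ⟨(A ×ˢ Y ×ˢ Φ).sup F, Submodule.finiteDimensional_finset_sup _ F, ?_⟩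
  intro h hh s hs y hy φ hφ
  have hm : (s, y, φ) ∈ A ×ˢ Y ×ˢ Φ := by simp [hs, hy, hφ]
  exact hFs (s, y, φ) h (Submodule.orthogonal_le (Finset.le_sup hm) hh)

theorem ip_add_right (a b c : ℕ →₀ ℝ) : ip a (b + c) = ip a b + ip a c := by
  unfold ip Finsupp.sum
  rw [← Finset.sum_add_distrib]
  apply Finset.sum_congr rfl
  intro k _
  simp [mul_add]

theorem ip_smul_right (r : ℝ) (a b : ℕ →₀ ℝ) : ip a (r • b) = r * ip a b := by
  unfold ip Finsupp.sum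
  rw [Finset.mul_sum]
  apply Finset.sum_congr rfl
  intro k _
  simp; ring

theorem ip_comm (a b : ℕ →₀ ℝ) : ip a b = ip b a := by
  classical
  have h : ∀ c d : ℕ →₀ ℝ, ip c d = ∑ k ∈ c.support ∪ d.support, c k * d k := by
    intro c d
    unfold ip Finsupp.sum
    apply Finset.sum_subset Finset.subset_union_left
    intro k _ hk
    simp [Finsupp.notMem_support_iff.1 hk]
  rw [h a b, h b a, Finset.union_comm]
  apply Finset.sum_congr rfl
  intro k _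
  ring

theorem ip_smul_left (r : ℝ) (a b : ℕ →₀ ℝ) : ip (r • a) b = r * ip a b := by
  rw [ip_comm, ip_smul_right, ip_comm]

theorem ip_self_pos {a : ℕ →₀ ℝ} (ha : a ≠ 0) : 0 < ip a a := by
  obtain ⟨k, hk⟩ := Finsupp.support_nonempty_iff.2 ha
  have hk' := Finsupp.mem_support_iff.1 hk
  have : 0 < a k * a k := mul_self_pos.2 hk'
  refine this.trans_le ?_
  unfold ip Finsupp.sum
  exact Finset.single_le_sum (f := fun k => a k * a k) (fun k _ => mul_self_nonneg _) hk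

theorem exists_gauss (hG : Stmt_GL.{w, v}) (g : ℕ → I → ℝ) (hg : IsGauss g)
    (F : Submodule 𝕜 (Lp 𝕜 2 (volume : Measure I))) [FiniteDimensional 𝕜 F]
    (B : Finset (ℕ →₀ ℝ)) :
    ∃ a : ℕ →₀ ℝ, ip a a = 1 ∧ (∀ b ∈ B, ip b a = 0) ∧ gl 𝕜 g a ∈ Fᗮ := by
  classical
  obtain ⟨_, _, _, hadd, hsmul, _⟩ := hG 𝕜 g hg
  obtain ⟨n, f, hf⟩ : ∃ (n : ℕ) (f : Fin n → Lp 𝕜 2 (volume : Measure I)),
      Submodule.span 𝕜 (Set.range f) = F := by
    obtain ⟨t, ht⟩ := (Submodule.fg_iff_finiteDimensional F).2 inferInstance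
    refine ⟨t.card, fun i => (t.equivFin.symm i : Lp 𝕜 2 (volume : Measure I)), ?_⟩
    rw [← ht]
    congr 1
    ext x
    constructor
    · rintro ⟨i, rfl⟩
      exact (t.equivFin.symm i).2
    · intro hx
      exact ⟨t.equivFin ⟨x, hx⟩, by simp⟩
  let Λ : (ℕ →₀ ℝ) →ₗ[ℝ] (B → ℝ) × (Fin n → 𝕜) :=
    { toFun := fun a => (fun b => ip b a, fun i => ⟪f i, gl 𝕜 g a⟫_𝕜)
      map_add' := by
        intro a b
        ext i
        · exact ip_add_right _ _ _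
        · change ⟪f i, gl 𝕜 g (a + b)⟫_𝕜 = ⟪f i, gl 𝕜 g a⟫_𝕜 + ⟪f i, gl 𝕜 g b⟫_𝕜
          rw [hadd, inner_add_right]
      map_smul' := by
        intro c a
        ext i
        · exact ip_smul_right _ _ _
        · change ⟪f i, gl 𝕜 g (c • a)⟫_𝕜 = c • ⟪f i, gl 𝕜 g a⟫_𝕜
          rw [hsmul, inner_smul_right, RCLike.real_smul_eq_coe_mul] }
  have hker : ¬ Function.Injective Λ := by
    intro hinj
    have h1 : FiniteDimensional ℝ (ℕ →₀ ℝ) := FiniteDimensional.of_injective Λ hinj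
    have h2 : LinearIndependent ℝ (fun k : ℕ => (Finsupp.single k (1 : ℝ))) :=
      (Finsupp.basisSingleOne (R := ℝ) (ι := ℕ)).linearIndependent
    have h3 : Finite ℕ := h2.finite
    exact not_finite ℕ
  obtain ⟨a, ha, ha0⟩ : ∃ a, Λ a = 0 ∧ a ≠ 0 := by
    by_contra hcon
    push Not at hcon
    exact hker ((injective_iff_map_eq_zero Λ).2 hcon)
  have hpos := ip_self_pos ha0
  set r := Real.sqrt (ip a a) with hr
  have hr0 : 0 < r := Real.sqrt_pos.2 hpos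
  have hrr : r * r = ip a a := Real.mul_self_sqrt hpos.le
  have hΛ1 : ∀ b : B, ip b a = 0 := fun b => congrFun (congrArg Prod.fst ha) b
  have hΛ2 : ∀ i : Fin n, ⟪f i, gl 𝕜 g a⟫_𝕜 = 0 := fun i => congrFun (congrArg Prod.snd ha) i
  refine ⟨r⁻¹ • a, ?_, ?_, ?_⟩
  · rw [ip_smul_left, ip_smul_right, ← hrr]
    field_simp
  · intro b hb
    rw [ip_smul_right, hΛ1 ⟨b, hb⟩, mul_zero]
  · rw [hsmul, ← hf]
    apply Submodule.smul_mem
    rw [Submodule.mem_orthogonal]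
    intro u hu
    induction hu using Submodule.span_induction with
    | mem x hx => obtain ⟨i, rfl⟩ := hx; exact hΛ2 i
    | zero => exact inner_zero_left _
    | add x y _ _ hx hy => rw [inner_add_left, hx, hy, add_zero]
    | smul c x _ hx => rw [inner_smul_left, hx, mul_zero]

theorem sel_of (hD : Stmt_Dich.{u, v}) (hG : Stmt_GL.{w, v}) (hC : Stmt_Cut.{u, v})
    (hZ : ∀ i, ¬ HasComplementedEll2 𝕜 (Z i))
    (T : L2V X →L[𝕜] lp Z 2) (S : lp Z 2 →L[𝕜] L2V X) (g : ℕ → I → ℝ) (hg : IsGauss g) :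
    Sel 𝕜 T S g := by
  classical
  intro Y Φ ε hε
  obtain ⟨_, _, hnorm, _, _, _⟩ := hG 𝕜 g hg
  obtain ⟨_, _, _, _, htail, _, _⟩ := hC 𝕜 ι Z
  let P : (ℕ →₀ ℝ) × Finset ι → Prop := fun q =>
    ip q.1 q.1 = 1 ∧ ∀ y ∈ Y,
      ‖T (tens 𝕜 y (gl 𝕜 g q.1)) - cut q.2 (T (tens 𝕜 y (gl 𝕜 g q.1)))‖ ≤ ε
  let R : (ℕ →₀ ℝ) × Finset ι → (ℕ →₀ ℝ) × Finset ι → Prop := fun q q' =>
    ip q.1 q'.1 = 0 ∧ q.2 ⊆ q'.2 ∧ ∀ y ∈ Y, ∀ φ ∈ Φ,
      ‖app 𝕜 φ (S (cut q.2 (T (tens 𝕜 y (gl 𝕜 g q'.1)))))‖ ≤ ε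
  obtain ⟨f, hf1, hf2⟩ := exists_seq_of_forall_finset_exists P R (by
    intro A _
    obtain ⟨F, hF, hFs⟩ := small_all hD hZ T S (A.image Prod.snd) Y Φ hε
    obtain ⟨a, ha1, ha2, ha3⟩ := exists_gauss hG g hg F (A.image Prod.fst)
    have hnorm1 : ‖gl 𝕜 g a‖ = 1 := by
      have h := hnorm a
      rw [ha1] at h
      nlinarith [norm_nonneg (gl 𝕜 g a)]
    choose t ht using fun y : X => htail (T (tens 𝕜 y (gl 𝕜 g a))) ε hε
    refine ⟨(a, A.sup Prod.snd ∪ Y.sup t), ⟨ha1, ?_⟩, ?_⟩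
    · intro y hy
      apply ht y
      exact (Finset.le_sup (f := t) hy).trans Finset.subset_union_right
    · intro q hq
      refine ⟨ha2 q.1 (Finset.mem_image_of_mem _ hq),
        (Finset.le_sup (f := Prod.snd) hq).trans Finset.subset_union_left, ?_⟩
      intro y hy φ hφ
      have := hFs (gl 𝕜 g a) ha3 q.2 (Finset.mem_image_of_mem _ hq) y hy φ hφ
      rwa [hnorm1, mul_one] at this)
  refine ⟨fun j => (f j).1, fun j => Nat.casesOn j ∅ (fun i => (f i).2), ?_, rfl, ?_, ?_⟩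
  · intro i j
    rcases lt_trichotomy i j with h | h | h
    · rw [if_neg h.ne]; exact (hf2 i j h).1
    · subst h; rw [if_pos rfl]; exact (hf1 i).1
    · rw [if_neg h.ne', ip_comm]; exact (hf2 j i h).1
  · apply monotone_nat_of_le_succ
    intro j
    rcases j with _ | j
    · exact Finset.empty_subset _
    · exact (hf2 j (j + 1) (Nat.lt_succ_self j)).2.1
  · intro j y hy
    refine ⟨(hf1 j).2 y hy, ?_⟩
    intro φ hφ
    rcases j with _ | j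
    · change ‖app 𝕜 φ (S (cut ∅ _))‖ ≤ ε
      have : cut (∅ : Finset ι) (T (tens 𝕜 y (gl 𝕜 g (f 0).1))) = 0 := by
        unfold cut; simp
      rw [this, map_zero, map_zero, norm_zero]
      exact hε.le
    · exact (hf2 j (j + 1) (Nat.lt_succ_self j)).2.2 y hy φ hφ

end

theorem sel (hD : Stmt_Dich.{u, v}) (hG : Stmt_GL.{w, v}) (hC : Stmt_Cut.{u, v}) :
    Stmt_Sel.{u, v, w} := by
  intro 𝕜 _ X _ _ ι Z _ _ T S g hg hZ
  exact sel_of hD hG hC hZ T S g hg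

end DiestelL2
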