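import Pool.Agent.DiestelL2.Defs2

/-!
# Type inequality (module `DL-Typ`)
-/

open MeasureTheory ProbabilityTheory
open scoped ENNReal unitInterval

namespace DiestelL2

universe u v w

/-- A finite set of norm one functionals which is `(1-δ)`-norming on a finite dimensional
subspace. -/
theorem exists_norming (𝕜 : Type v) [RCLike 𝕜] (X : Type w) [NormedAddCommGroup X]
    [NormedSpace 𝕜 X] (F : Submodule 𝕜 X) [FiniteDimensional 𝕜 F] (δ : ℝ) (hδ : 0 < δ) :
    ∃ Φ : Finset (StrongDual 𝕜 X), (∀ φ ∈ Φ, ‖φ‖ ≤ 1) ∧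
      ∀ y ∈ F, ∃ φ ∈ Φ, (1 - δ) * ‖y‖ ≤ ‖φ y‖ := by
  classical
  haveI : ProperSpace F := FiniteDimensional.proper 𝕜 F
  obtain ⟨t, hts, htf, htc⟩ := (isCompact_sphere (0 : F) 1).finite_cover_balls hδ
  choose φ hφ1 hφ2 using fun u : X => exists_dual_vector'' 𝕜 u
  refine ⟨insert 0 (htf.toFinset.image (fun u : F => φ (u : X))), ?_, ?_⟩
  · intro ψ hψ
    rw [Finset.mem_insert] at hψ
    rcases hψ with rfl | hψ
    · simp
    · obtain ⟨u, _, rfl⟩ := Finset.mem_image.1 hψ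
      exact hφ1 _
  · intro y hy
    by_cases hy0 : y = 0
    · subst hy0
      exact ⟨0, Finset.mem_insert_self _ _, by simp⟩
    have hny : 0 < ‖y‖ := norm_pos_iff.2 hy0
    have hz : (((‖y‖ : ℝ) : 𝕜)⁻¹ • (⟨y, hy⟩ : F)) ∈ Metric.sphere (0 : F) 1 := by
      rw [mem_sphere_zero_iff_norm, norm_smul, norm_inv, RCLike.norm_ofReal, abs_of_pos hny]
      simp only [Submodule.coe_norm]
      exact inv_mul_cancel₀ hny.ne'
    obtain ⟨u, hu, hzu⟩ := Set.mem_iUnion₂.1 (htc hz)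
    refine ⟨φ (u : X), Finset.mem_insert_of_mem
      (Finset.mem_image.2 ⟨u, htf.mem_toFinset.2 hu, rfl⟩), ?_⟩
    have hu1 : ‖(u : X)‖ = 1 := by
      have := hts hu
      rwa [mem_sphere_zero_iff_norm, Submodule.coe_norm] at this
    rw [Metric.mem_ball, dist_eq_norm, Submodule.coe_norm] at hzu
    simp only [Submodule.coe_sub, Submodule.coe_smul] at hzu
    have h1 : ‖φ (u : X) (u : X)‖ = 1 := by
      rw [hφ2, RCLike.norm_ofReal, hu1]; simp
    have h2 : ‖φ (u : X) ((((‖y‖ : ℝ) : 𝕜)⁻¹ • y) - u)‖ ≤ δ :=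
      ((φ (u : X)).le_opNorm _).trans
        ((mul_le_of_le_one_left (norm_nonneg _) (hφ1 _)).trans hzu.le)
    rw [map_sub, map_smul, smul_eq_mul] at h2
    have h3 : 1 - δ ≤ ‖((‖y‖ : ℝ) : 𝕜)⁻¹ * φ (u : X) y‖ := by
      have := norm_sub_norm_le (φ (u : X) (u : X)) (((‖y‖ : ℝ) : 𝕜)⁻¹ * φ (u : X) y)
      rw [norm_sub_rev] at this
      linarith
    rw [norm_mul, norm_inv, RCLike.norm_ofReal, abs_of_pos hny] at h3
    calc (1 - δ) * ‖y‖ ≤ (‖y‖⁻¹ * ‖φ (u : X) y‖) * ‖y‖ :=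
          mul_le_mul_of_nonneg_right h3 hny.le
      _ = ‖φ (u : X) y‖ := by field_simp

/-- The pointwise norm of an `L²` function, as an element of real `L²`. -/
noncomputable def nl {X : Type*} [NormedAddCommGroup X] (f : L2V X) :
    Lp ℝ 2 (volume : Measure I) :=
  ((Lp.memLp f).norm).toLp _

theorem nl_coe {X : Type*} [NormedAddCommGroup X] (f : L2V X) :
    nl f =ᵐ[volume] fun ω => ‖f ω‖ := MemLp.coeFn_toLp _

theorem nl_norm {X : Type*} [NormedAddCommGroup X] (f : L2V X) : ‖nl f‖ = ‖f‖ := by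
  apply le_antisymm
  · apply Lp.norm_le_norm_of_ae_le
    filter_upwards [nl_coe f] with ω hω
    rw [hω]; simp
  · apply Lp.norm_le_norm_of_ae_le
    filter_upwards [nl_coe f] with ω hω
    rw [hω]; simp

theorem coe_sum {X : Type*} [NormedAddCommGroup X] {α : Type*} (s : Finset α) (f : α → L2V X) :
    (∑ i ∈ s, f i : L2V X) =ᵐ[volume] fun ω => ∑ i ∈ s, f i ω := by
  classical
  induction s using Finset.induction_on with
  | empty =>
    simp only [Finset.sum_empty]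
    exact Lp.coeFn_zero _ _ _
  | insert a s ha ih =>
    simp only [Finset.sum_insert ha]
    filter_upwards [Lp.coeFn_add (f a) (∑ i ∈ s, f i), ih] with ω h1 h2
    rw [h1, Pi.add_apply, h2]

/-- The key estimate. -/
theorem norm_split (𝕜 : Type v) [RCLike 𝕜] {X : Type w} [NormedAddCommGroup X]
    [NormedSpace 𝕜 X] (F : Submodule 𝕜 X) (δ : ℝ) (Φ : Finset (StrongDual 𝕜 X))
    (hΦ1 : ∀ φ ∈ Φ, ‖φ‖ ≤ 1) (hΦ : ∀ y ∈ F, ∃ φ ∈ Φ, (1 - δ) * ‖y‖ ≤ ‖φ y‖)
    (G H B : L2V X) (hG : G = H + B) (hGF : ∀ᵐ ω, G ω ∈ F) :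
    (1 - δ) * ‖G‖ ≤ ∑ φ ∈ Φ, ‖app 𝕜 φ H‖ + ‖B‖ := by
  have key : ‖(1 - δ) • nl G‖ ≤ ‖∑ φ ∈ Φ, nl (app 𝕜 φ H) + nl B‖ ∨ 1 - δ < 0 := by
    rcases lt_or_ge (1 - δ) 0 with h | hd
    · exact Or.inr h
    left
    apply Lp.norm_le_norm_of_ae_le
    have happ : ∀ᵐ ω, ∀ φ ∈ Φ, app 𝕜 φ H ω = φ (H ω) := by
      rw [Filter.eventually_all_finset]
      intro φ _
      exact ContinuousLinearMap.coeFn_compLpL φ H
    have hnl : ∀ᵐ ω, ∀ φ ∈ Φ, nl (app 𝕜 φ H) ω = ‖app 𝕜 φ H ω‖ := by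
      rw [Filter.eventually_all_finset]
      intro φ _
      exact nl_coe _
    have hadd : ∀ᵐ ω, G ω = H ω + B ω := by
      rw [hG]
      filter_upwards [Lp.coeFn_add H B] with ω h
      rw [h]; rfl
    filter_upwards [Lp.coeFn_smul (1 - δ) (nl G), nl_coe G, hGF, happ, hnl, hadd,
      Lp.coeFn_add (∑ φ ∈ Φ, nl (app 𝕜 φ H)) (nl B), coe_sum Φ (fun φ => nl (app 𝕜 φ H)),
      nl_coe B] with ω h1 h2 h3 h4 h5 h6 h7 h8 h9
    rw [h1, h7, Pi.smul_apply, Pi.add_apply, h2, h8, h9, smul_eq_mul, Real.norm_eq_abs,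
      Real.norm_eq_abs, abs_of_nonneg (mul_nonneg hd (norm_nonneg _)), abs_of_nonneg]
    · obtain ⟨φ, hφ, hle⟩ := hΦ _ h3
      refine hle.trans ?_
      have e1 : ‖φ (G ω)‖ ≤ ‖φ (H ω)‖ + ‖B ω‖ := by
        rw [h6, map_add]
        refine (norm_add_le _ _).trans ?_
        gcongr
        exact ((φ.le_opNorm _).trans (mul_le_of_le_one_left (norm_nonneg _) (hΦ1 φ hφ)))
      refine e1.trans ?_
      gcongr
      rw [← h4 φ hφ, ← h5 φ hφ]
      refine Finset.single_le_sum (f := fun φ => nl (app 𝕜 φ H) ω) (fun ψ hψ => ?_) hφ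
      simp only [h5 ψ hψ, norm_nonneg]
    · refine add_nonneg (Finset.sum_nonneg fun ψ hψ => ?_) (norm_nonneg _)
      rw [h5 ψ hψ]; exact norm_nonneg _
  have hR : ‖∑ φ ∈ Φ, nl (app 𝕜 φ H) + nl B‖ ≤ ∑ φ ∈ Φ, ‖app 𝕜 φ H‖ + ‖B‖ := by
    refine (norm_add_le _ _).trans ?_
    rw [nl_norm]
    gcongr
    refine (norm_sum_le _ _).trans ?_
    simp only [nl_norm, le_refl]
  rcases key with key | hneg
  · rcases le_or_gt 0 (1 - δ) with hd | hd
    · rw [norm_smul, nl_norm, Real.norm_eq_abs, abs_of_nonneg hd] at key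
      exact key.trans hR
    · exact (mul_nonpos_of_nonpos_of_nonneg hd.le (norm_nonneg _)).trans
        (add_nonneg (Finset.sum_nonneg fun _ _ => norm_nonneg _) (norm_nonneg _))
  · exact (mul_nonpos_of_nonpos_of_nonneg hneg.le (norm_nonneg _)).trans
      (add_nonneg (Finset.sum_nonneg fun _ _ => norm_nonneg _) (norm_nonneg _))

theorem norm_tens_le (𝕜 : Type v) [RCLike 𝕜] {X : Type w} [NormedAddCommGroup X]
    [NormedSpace 𝕜 X] (x : X) (h : Lp 𝕜 2 (volume : Measure I)) :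
    ‖tens 𝕜 x h‖ ≤ ‖x‖ * ‖h‖ := by
  refine (ContinuousLinearMap.le_opNorm _ _).trans ?_
  gcongr
  refine (ContinuousLinearMap.norm_compLpL_le _).trans ?_
  simp

theorem typ (hGL : Stmt_GL.{w, v}) (hCut : Stmt_Cut.{u, v}) : Stmt_Typ.{u, v, w} := by
  intro 𝕜 _ X _ _ ι Z _ _ T S g hg hST hSel n x
  classical
  obtain ⟨-, -, gl_norm, -, -, gl_law⟩ := hGL 𝕜 g hg
  obtain ⟨-, -, cut_le, cut_disj, -, cut_sum, -⟩ := hCut 𝕜 ι Z
  set N2 : ℝ := ∫ t, ‖∑ j, (t j : 𝕜) • x j‖ ^ 2 ∂(gam n) with hN2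
  set A : ℝ := ∑ j, ‖x j‖ ^ 2 with hA
  have hA0 : 0 ≤ A := Finset.sum_nonneg fun _ _ => sq_nonneg _
  have hN0 : 0 ≤ N2 := integral_nonneg fun _ => sq_nonneg _
  set F : Submodule 𝕜 X := Submodule.span 𝕜 (Set.range x) with hF
  haveI : FiniteDimensional 𝕜 F := FiniteDimensional.span_of_finite 𝕜 (Set.finite_range x)
  have main : ∀ δ : ℝ, 0 < δ → (1 - δ) * √N2 ≤ (‖S‖ * ‖T‖) * √A := by
    intro δ hδ
    obtain ⟨Φ, hΦ1, hΦ⟩ := exists_norming 𝕜 X F δ hδ
    have step : ∀ ε : ℝ, 0 < ε → (1 - δ) * √N2 ≤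
        (‖S‖ * ‖T‖) * √A + ε * (n * Φ.card + ‖S‖ * n) := by
      intro ε hε
      obtain ⟨a, s, ha, hs0, hsm, hsel⟩ := hSel (Finset.univ.image x) Φ ε hε
      set G : Fin n → L2V X := fun j => tens 𝕜 (x j) (gl 𝕜 g (a j)) with hGdef
      set w : Fin n → lp Z 2 := fun j => T (G j) with hw
      set hd : Fin n → lp Z 2 := fun j => cut (s j) (w j) with hhd
      set bl : Fin n → lp Z 2 := fun j => cut (s (j + 1)) (w j) - cut (s j) (w j) with hbl
      set rs : Fin n → lp Z 2 := fun j => w j - cut (s (j + 1)) (w j) with hrs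
      have hGn : ∀ j, ‖G j‖ ≤ ‖x j‖ := by
        intro j
        refine (norm_tens_le 𝕜 (x j) _).trans ?_
        have h1 : ‖gl 𝕜 g (a j)‖ ^ 2 = 1 := by rw [gl_norm, ha]; simp
        have h2 : ‖gl 𝕜 g (a j)‖ = 1 :=
          (pow_eq_one_iff_of_nonneg (norm_nonneg _) two_ne_zero).1 h1
        rw [h2, mul_one]
      have hNG : ‖∑ j, G j‖ = √N2 := by
        rw [hN2, ← gl_law X n (fun j => a j) (fun i j => by
          rw [ha]; simp only [Fin.val_inj]) x, Real.sqrt_sq (norm_nonneg _)]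
      have hdec : ∑ j, G j = S (∑ j, hd j) + (S (∑ j, bl j) + S (∑ j, rs j)) := by
        rw [← map_add, ← map_add, ← Finset.sum_add_distrib, ← Finset.sum_add_distrib]
        rw [← hST (∑ j, G j), map_sum]
        congr 1
        refine Finset.sum_congr rfl fun j _ => ?_
        simp only [hhd, hbl, hrs, hw]
        abel
      have hGF : ∀ᵐ ω, (∑ j, G j : L2V X) ω ∈ F := by
        have h1 : ∀ᵐ ω, ∀ j ∈ (Finset.univ : Finset (Fin n)), G j ω =
            (ContinuousLinearMap.toSpanSingleton 𝕜 (x j)) (gl 𝕜 g (a j) ω) := by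
          rw [Filter.eventually_all_finset]
          intro j _
          exact ContinuousLinearMap.coeFn_compLpL _ _
        filter_upwards [coe_sum Finset.univ G, h1] with ω h2 h3
        rw [h2]
        refine Submodule.sum_mem _ fun j hj => ?_
        rw [h3 j hj, ContinuousLinearMap.toSpanSingleton_apply]
        exact Submodule.smul_mem _ _ (Submodule.subset_span ⟨j, rfl⟩)
      have h1 := norm_split 𝕜 F δ Φ hΦ1 hΦ _ _ _ hdec hGF
      rw [hNG] at h1
      have h2 : ∑ φ ∈ Φ, ‖app 𝕜 φ (S (∑ j, hd j))‖ ≤ ε * (n * Φ.card) := by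
        have : ∀ φ ∈ Φ, ‖app 𝕜 φ (S (∑ j, hd j))‖ ≤ ε * n := by
          intro φ hφ
          rw [map_sum, map_sum]
          refine (norm_sum_le _ _).trans ?_
          refine (Finset.sum_le_card_nsmul _ _ ε fun j _ => ?_).trans ?_
          · exact (hsel j (x j) (Finset.mem_image_of_mem _ (Finset.mem_univ _))).2 φ hφ
          · simp [mul_comm]
        refine (Finset.sum_le_card_nsmul _ _ _ this).trans ?_
        rw [nsmul_eq_mul]
        exact le_of_eq (by ring)
      have h3 : ‖S (∑ j, rs j)‖ ≤ ε * (‖S‖ * n) := by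
        refine (S.le_opNorm _).trans ?_
        have : ‖∑ j, rs j‖ ≤ n * ε := by
          refine (norm_sum_le _ _).trans ?_
          refine (Finset.sum_le_card_nsmul _ _ ε fun j _ => ?_).trans ?_
          · exact (hsel j (x j) (Finset.mem_image_of_mem _ (Finset.mem_univ _))).1
          · simp
        calc ‖S‖ * ‖∑ j, rs j‖ ≤ ‖S‖ * (n * ε) := by gcongr
          _ = ε * (‖S‖ * n) := by ring
      have h4 : ‖S (∑ j, bl j)‖ ≤ (‖S‖ * ‖T‖) * √A := by
        refine (S.le_opNorm _).trans ?_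
        have hb : ‖∑ j, bl j‖ ≤ ‖T‖ * √A := by
          set w' : ℕ → lp Z 2 := fun j => if h : j < n then w ⟨j, h⟩ else 0 with hw'
          set sd : ℕ → Finset ι := fun j => s (j + 1) \ s j with hsd
          have e1 : ∀ j : Fin n, bl j = cut (sd j) (w' j) := by
            intro j
            have hdj : Disjoint (s (j : ℕ)) (s ((j : ℕ) + 1) \ s (j : ℕ)) :=
              Finset.disjoint_sdiff
            have e2 := cut_disj _ _ hdj (w j)
            have e3 : (s (j : ℕ)).disjUnion (s ((j : ℕ) + 1) \ s (j : ℕ)) hdj =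
                s ((j : ℕ) + 1) := by
              rw [Finset.disjUnion_eq_union]
              exact Finset.union_sdiff_of_subset (hsm (Nat.le_succ _))
            rw [e3] at e2
            simp only [hbl, hsd, hw', e2, j.2, dite_true, Fin.eta]
            abel
          have e4 : ∑ j, bl j = ∑ j ∈ Finset.range n, cut (sd j) (w' j) := by
            rw [Finset.sum_range]
            exact Finset.sum_congr rfl fun j _ => e1 j
          have e5 : ∀ i ∈ Finset.range n, ∀ j ∈ Finset.range n, i ≠ j →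
              Disjoint (sd i) (sd j) := by
            have : ∀ i j, i < j → Disjoint (sd i) (sd j) := by
              intro i j hij
              refine Finset.disjoint_left.2 fun z hz1 hz2 => ?_
              rw [hsd] at hz1 hz2
              simp only [Finset.mem_sdiff] at hz1 hz2
              exact hz2.2 (hsm (Nat.succ_le_of_lt hij) hz1.1)
            intro i _ j _ hij
            rcases lt_or_gt_of_ne hij with h | h
            · exact this _ _ h
            · exact (this _ _ h).symm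
          have e6 := cut_sum (Finset.range n) sd w' e5
          have e7 : ‖∑ j, bl j‖ ^ 2 ≤ (‖T‖ * √A) ^ 2 := by
            rw [e4, e6, Finset.sum_range, mul_pow, Real.sq_sqrt hA0, hA, Finset.mul_sum]
            refine Finset.sum_le_sum fun j _ => ?_
            have : ‖cut (sd j) (w' j)‖ ≤ ‖T‖ * ‖x j‖ := by
              refine (cut_le _ _).trans ?_
              simp only [hw', j.2, dite_true, Fin.eta]
              exact (T.le_opNorm _).trans (by gcongr; exact hGn j)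
            calc ‖cut (sd j) (w' j)‖ ^ 2 ≤ (‖T‖ * ‖x j‖) ^ 2 := by gcongr
              _ = ‖T‖ ^ 2 * ‖x j‖ ^ 2 := by ring
          exact le_of_sq_le_sq e7 (by positivity)
        calc ‖S‖ * ‖∑ j, bl j‖ ≤ ‖S‖ * (‖T‖ * √A) := by gcongr
          _ = _ := by ring
      calc (1 - δ) * √N2 ≤ _ := h1
        _ ≤ ε * (n * Φ.card) + ((‖S‖ * ‖T‖) * √A + ε * (‖S‖ * n)) := by
            gcongr
            exact (norm_add_le _ _).trans (add_le_add h4 h3)
        _ = _ := by ring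
    refine le_of_forall_pos_le_add fun ε hε => ?_
    have hc : 0 ≤ (n * Φ.card + ‖S‖ * n : ℝ) := by positivity
    have := step (ε / (n * Φ.card + ‖S‖ * n + 1)) (by positivity)
    refine this.trans ?_
    gcongr
    rw [div_mul_eq_mul_div, div_le_iff₀ (by positivity)]
    nlinarith
  have fin : √N2 ≤ (‖S‖ * ‖T‖) * √A := by
    refine le_of_forall_pos_le_add fun ε hε => ?_
    have h0 := Real.sqrt_nonneg N2
    have := main (ε / (√N2 + 1)) (by positivity)
    have h1 : ε / (√N2 + 1) * √N2 ≤ ε := by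
      rw [div_mul_eq_mul_div, div_le_iff₀ (by positivity)]
      nlinarith
    nlinarith
  have := pow_le_pow_left₀ (Real.sqrt_nonneg _) fin 2
  rwa [Real.sq_sqrt hN0, mul_pow, Real.sq_sqrt hA0] at this

end DiestelL2
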