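import Pool.Agent.DiestelL2.Kwap
import Pool.Agent.DiestelL2.Hil
import Pool.Agent.DiestelL2.Conv
import Pool.Agent.DiestelL2.FD
import Pool.Agent.DiestelL2.Dich
import Pool.Agent.DiestelL2.Double
import Pool.Agent.DiestelL2.Gauss
import Pool.Agent.DiestelL2.GL
import Pool.Agent.DiestelL2.Cut
import Pool.Agent.DiestelL2.SelMod
import Pool.Agent.DiestelL2.Cot
import Pool.Agent.DiestelL2.Typ

/-!
# Assembly
-/

open MeasureTheory ProbabilityTheory
open scoped ENNReal unitInterval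

set_option linter.unusedSectionVars false

namespace DiestelL2

universe u v w

/-- If `L²([0,1],X)` is isomorphic to a complemented subspace of an `ℓ²`-sum of spaces without
complemented copies of `ℓ²`, then `X` is isomorphic to a Hilbert space. -/
theorem hilbertian_of_factor (𝕜 : Type v) [RCLike 𝕜] (X : Type u) [NormedAddCommGroup X]
    [NormedSpace 𝕜 X] [CompleteSpace X] (ι : Type) (Z : ι → Type w)
    [∀ i, NormedAddCommGroup (Z i)] [∀ i, NormedSpace 𝕜 (Z i)]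
    (hZ : ∀ i, ¬ HasComplementedEll2 𝕜 (Z i))
    (T : L2V X →L[𝕜] lp Z 2) (S : lp Z 2 →L[𝕜] L2V X) (hST : ∀ f, S (T f) = f) :
    IsHilbertian 𝕜 X := by
  obtain ⟨g, hgm, hgl⟩ := gauss
  have hg : IsGauss g := ⟨hgm, hgl⟩
  have hsel : Sel 𝕜 T S g :=
    sel dich.{w, v} gl_facts.{u, v} cut_facts.{w, v} 𝕜 X ι Z T S g hg hZ
  have hcot := cot 𝕜 X ι Z T S g hg hST hsel
  have htyp := typ gl_facts.{u, v} cut_facts.{w, v} 𝕜 X ι Z T S g hg hST hsel
  let _ : NormedSpace ℝ X := NormedSpace.restrictScalars ℝ 𝕜 X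
  have hsm : ∀ (c : ℝ) (x : X), c • x = (c : 𝕜) • x := fun c x => rfl
  obtain ⟨B, hB1, hB2⟩ := kwap X ((‖S‖ * ‖T‖) ^ 2) (by positivity)
    (fun n x => by simpa only [hsm] using htyp n x)
    (fun n x => by simpa only [hsm] using hcot n x)
  exact hil 𝕜 X (fun x y => B x y) (((‖S‖ * ‖T‖) ^ 2) ^ 2)
    (fun x y z => by simp) (fun c x y => by rw [← hsm]; simp) hB1 (fun x => (hB2 x).1)
    (fun x => (hB2 x).2)

/-- The class of spaces treated: `X` is isomorphic to a complemented subspace of the `ℓ²`-sum of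
a family of spaces none of which contains a complemented copy of `ℓ²`. -/
theorem hilbertian_of_iso (𝕜 : Type v) [RCLike 𝕜] (X : Type u) [NormedAddCommGroup X]
    [NormedSpace 𝕜 X] [CompleteSpace X] (ι : Type) (Z : ι → Type u)
    [∀ i, NormedAddCommGroup (Z i)] [∀ i, NormedSpace 𝕜 (Z i)]
    (hZ : ∀ i, ¬ HasComplementedEll2 𝕜 (Z i))
    (A : X →L[𝕜] lp Z 2) (B : lp Z 2 →L[𝕜] X) (hBA : ∀ x, B (A x) = x)
    (h : Nonempty (ell2V X ≃L[𝕜] L2V X)) : IsHilbertian 𝕜 X := by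
  obtain ⟨e⟩ := h
  obtain ⟨A', B', hAB'⟩ := double 𝕜 ι Z
  refine hilbertian_of_factor 𝕜 X (ℕ × ι) (fun p => Z p.2) (fun p => hZ p.2)
    (A' ∘L ((ellMap A) ∘L (e.symm : L2V X →L[𝕜] ell2V X)))
    ((e : ell2V X →L[𝕜] L2V X) ∘L ((ellMap B) ∘L B')) ?_
  intro f
  have h1 : ∀ w, B' (A' w) = w := fun w => congrArg (fun L => L w) hAB'
  have h2 : ∀ w : ell2V X, ellMap B (ellMap A w) = w := by
    intro w
    ext i
    rw [ellMap_apply, ellMap_apply, hBA]
  simp only [ContinuousLinearMap.comp_apply, h1, h2]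
  exact e.apply_symm_apply f

/-- Diestel's question for the spaces of the class. -/
theorem diestel_class (𝕜 : Type v) [RCLike 𝕜] (X : Type u) [NormedAddCommGroup X]
    [NormedSpace 𝕜 X] [CompleteSpace X] [TopologicalSpace.SeparableSpace X] (ι : Type)
    (Z : ι → Type u) [∀ i, NormedAddCommGroup (Z i)] [∀ i, NormedSpace 𝕜 (Z i)]
    (hZ : ∀ i, ¬ HasComplementedEll2 𝕜 (Z i))
    (A : X →L[𝕜] lp Z 2) (B : lp Z 2 →L[𝕜] X) (hBA : ∀ x, B (A x) = x) :
    Nonempty (ell2V X ≃L[𝕜] L2V X) ↔ IsHilbertian 𝕜 X :=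
  ⟨hilbertian_of_iso 𝕜 X ι Z hZ A B hBA, conv 𝕜 X⟩

/-- Corollary: an infinite dimensional `X` with `ℓ²(X) ≅ L²([0,1],X)` contains a complemented
copy of `ℓ²`. -/
theorem complemented_of_iso (𝕜 : Type v) [RCLike 𝕜] (X : Type u) [NormedAddCommGroup X]
    [NormedSpace 𝕜 X] [CompleteSpace X] (hX : ¬ FiniteDimensional 𝕜 X)
    (h : Nonempty (ell2V X ≃L[𝕜] L2V X)) : HasComplementedEll2 𝕜 X := by
  by_contra hc
  obtain ⟨e⟩ := h
  have h1 : IsHilbertian 𝕜 X := hilbertian_of_factor 𝕜 X ℕ (fun _ => X) (fun _ => hc)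
    (e.symm : L2V X →L[𝕜] ell2V X) (e : ell2V X →L[𝕜] L2V X) (fun f => e.apply_symm_apply f)
  exact hX ((fd 𝕜 X).1 h1 hc)

end DiestelL2
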