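import Pool.Agent.DiestelL2.Main

/-!
# Public form of the theorem
-/

open MeasureTheory
open scoped unitInterval

namespace DiestelL2

universe u v w

/-- `E` and `F` are isomorphic as Banach spaces over `𝕜` (linearly homeomorphic). -/
def Isom (𝕜 : Type v) [RCLike 𝕜] (E : Type u) (F : Type w) [NormedAddCommGroup E]
    [NormedSpace 𝕜 E] [NormedAddCommGroup F] [NormedSpace 𝕜 F] : Prop :=
  Nonempty (E ≃L[𝕜] F)

/-- `E` is isomorphic to a complemented subspace of `F`. -/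
def ComplIn (𝕜 : Type v) [RCLike 𝕜] (E : Type u) (F : Type w) [NormedAddCommGroup E]
    [NormedSpace 𝕜 E] [NormedAddCommGroup F] [NormedSpace 𝕜 F] : Prop :=
  ∃ (A : E →L[𝕜] F) (B : F →L[𝕜] E), ∀ x, B (A x) = x

theorem complIn_iff (𝕜 : Type v) [RCLike 𝕜] (Z : Type u) [NormedAddCommGroup Z]
    [NormedSpace 𝕜 Z] : ComplIn 𝕜 (lp (fun _ : ℕ => 𝕜) 2) Z ↔ HasComplementedEll2 𝕜 Z := by
  constructor
  · rintro ⟨A, B, h⟩
    exact ⟨A, B, ContinuousLinearMap.ext h⟩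
  · rintro ⟨A, B, h⟩
    exact ⟨A, B, fun x => congrArg (fun L => L x) h⟩

theorem diestel_pub (𝕜 : Type v) [RCLike 𝕜] (X : Type u) [NormedAddCommGroup X]
    [NormedSpace 𝕜 X] [CompleteSpace X] [TopologicalSpace.SeparableSpace X] (ι : Type)
    (Z : ι → Type u) [∀ i, NormedAddCommGroup (Z i)] [∀ i, NormedSpace 𝕜 (Z i)]
    (hZ : ∀ i, ¬ ComplIn 𝕜 (lp (fun _ : ℕ => 𝕜) 2) (Z i)) (hX : ComplIn 𝕜 X (lp Z 2)) :
    Isom 𝕜 (lp (fun _ : ℕ => X) 2) (Lp X 2 (volume : Measure I)) ↔ IsHilbertian 𝕜 X := by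
  obtain ⟨A, B, hBA⟩ := hX
  exact diestel_class 𝕜 X ι Z (fun i hi => hZ i ((complIn_iff 𝕜 (Z i)).2 hi)) A B hBA

end DiestelL2
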